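import Pool.Agent.H57.AC.Stm0

/-! AC-CSC (helper19): the Schur complement of the paths -/

set_option autoImplicit false

noncomputable section

open Matrix

namespace Pool.Agent.H57.AC

namespace CSCx

section gen

variable {R : Type} [Ring R] {V Q : Type} [Fintype V] [Fintype Q] [DecidableEq V] [DecidableEq Q]
  {K : ℕ} {α : Type}

theorem mul_inl (M : Matrix ((V × Fin (K + 1)) ⊕ Q) α R) (v : V) (y : α) :
    (cc R V Q K * M) (Sum.inl v) y = ∑ k : Fin (K + 1), (-1) ^ k.val * M (Sum.inl (v, k)) y := by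
  rw [Matrix.mul_apply, Fintype.sum_sum_type, Fintype.sum_prod_type]
  simp only [cc, ite_mul, zero_mul, Finset.sum_const_zero, add_zero]
  rw [Finset.sum_eq_single v]
  · simp
  · intro b _ hb
    exact Finset.sum_eq_zero fun k _ => if_neg (Ne.symm hb)
  · simp

theorem mul_inr (M : Matrix ((V × Fin (K + 1)) ⊕ Q) α R) (q : Q) (y : α) :
    (cc R V Q K * M) (Sum.inr q) y = M (Sum.inr q) y := by
  rw [Matrix.mul_apply, Fintype.sum_sum_type]
  simp only [cc, ite_mul, zero_mul, Finset.sum_const_zero, zero_add, one_mul,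
    Finset.sum_ite_eq, Finset.mem_univ, if_true]

theorem mulT_inl (M : Matrix α ((V × Fin (K + 1)) ⊕ Q) R) (x : α) (v : V) :
    (M * (cc R V Q K)ᵀ) x (Sum.inl v) = ∑ k : Fin (K + 1), M x (Sum.inl (v, k)) * (-1) ^ k.val := by
  rw [Matrix.mul_apply, Fintype.sum_sum_type, Fintype.sum_prod_type]
  simp only [Matrix.transpose_apply, cc, mul_ite, mul_zero, Finset.sum_const_zero, add_zero]
  rw [Finset.sum_eq_single v]
  · simp
  · intro b _ hb
    exact Finset.sum_eq_zero fun k _ => if_neg (Ne.symm hb)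
  · simp

theorem mulT_inr (M : Matrix α ((V × Fin (K + 1)) ⊕ Q) R) (x : α) (q : Q) :
    (M * (cc R V Q K)ᵀ) x (Sum.inr q) = M x (Sum.inr q) := by
  rw [Matrix.mul_apply, Fintype.sum_sum_type]
  simp only [Matrix.transpose_apply, cc, mul_ite, mul_zero, Finset.sum_const_zero, zero_add, mul_one,
    Finset.sum_ite_eq, Finset.mem_univ, if_true]

theorem two {T : Type} [Fintype T] (P : T → Prop) [DecidablePred P] (k0 l0 : T → ℕ)
    (hk : ∀ t, k0 t < K + 1) (hl : ∀ t, l0 t < K + 1) (g : T → R) :
    ∑ l : Fin (K + 1), (∑ k : Fin (K + 1), (-1) ^ k.val *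
      ∑ t, if P t ∧ k.val = k0 t ∧ l.val = l0 t then g t else 0) * (-1) ^ l.val =
    ∑ t, if P t then (-1) ^ k0 t * g t * (-1) ^ l0 t else 0 := by
  simp only [Finset.mul_sum, Finset.sum_mul]
  have e1 : ∀ l : Fin (K + 1), (∑ k : Fin (K + 1), ∑ t, (-1) ^ k.val *
      (if P t ∧ k.val = k0 t ∧ l.val = l0 t then g t else 0) * (-1) ^ l.val) =
      ∑ t, ∑ k : Fin (K + 1), (-1) ^ k.val *
      (if P t ∧ k.val = k0 t ∧ l.val = l0 t then g t else 0) * (-1) ^ l.val := fun l =>
    Finset.sum_comm
  simp only [e1]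
  rw [Finset.sum_comm]
  refine Finset.sum_congr rfl fun t _ => ?_
  rw [Finset.sum_eq_single (⟨l0 t, hl t⟩ : Fin (K + 1))]
  · rw [Finset.sum_eq_single (⟨k0 t, hk t⟩ : Fin (K + 1))]
    · by_cases h : P t <;> simp [h]
    · intro k _ hk'
      have : ¬ (k.val = k0 t) := fun h => hk' (Fin.ext h)
      simp [this]
    · simp
  · intro l _ hl'
    have : ¬ (l.val = l0 t) := fun h => hl' (Fin.ext h)
    exact Finset.sum_eq_zero fun k _ => by simp [this]
  · simp

end gen

theorem cst_single {G : Type} [Group G] (g : G) (c : ℂ) :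
    cst (MonoidAlgebra.single g c) = MonoidAlgebra.single g⁻¹ ((starRingEnd ℂ) c) := by
  unfold cst
  rw [MonoidAlgebra.coeff_single, Finsupp.equivMapDomain_single, Finsupp.mapRange_single]
  rfl

theorem cst_add {G : Type} [Group G] (x y : MonoidAlgebra ℂ G) : cst (x + y) = cst x + cst y := by
  unfold cst
  rw [← MonoidAlgebra.ofCoeff_add]
  congr 1
  ext g
  simp [Finsupp.equivMapDomain_apply]

theorem cst_zero {G : Type} [Group G] : cst (0 : MonoidAlgebra ℂ G) = 0 := by
  unfold cst
  ext g
  simp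

theorem cst_sum {G : Type} [Group G] {T : Type} (s : Finset T) (f : T → MonoidAlgebra ℂ G) :
    cst (∑ t ∈ s, f t) = ∑ t ∈ s, cst (f t) := by
  classical
  induction s using Finset.induction_on with
  | empty => simp [cst_zero]
  | insert a s ha ih => rw [Finset.sum_insert ha, Finset.sum_insert ha, cst_add, ih]

end CSCx

theorem neg_pow_even (R : Type) [Ring R] (k : ℕ) : ((-1 : R)) ^ (2 * k) = 1 := by
  rw [pow_mul]
  simp

open CSCx in
theorem csc : S_CSC := by
  intro G _ m n N I J γ σ
  have hk : ∀ t : Fin N, 2 * t.val + (if σ t then 1 else 0) < 2 * N + 1 := by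
    intro t
    have := t.isLt
    split_ifs <;> omega
  have hl : ∀ t : Fin N, 2 * t.val < 2 * N + 1 := by
    intro t
    have := t.isLt
    omega
  refine Matrix.ext fun a b => ?_
  rcases a with (i | j) | c <;> rcases b with (i' | j') | c'
  · rw [mulT_inl]
    simp only [mul_inl, base, hat, mul_zero, Finset.sum_const_zero, zero_mul]
  · rw [mulT_inl]
    simp only [mul_inl, base, hat, mat]
    have h := two (R := MonoidAlgebra ℂ G) (fun t : Fin N => I t = i ∧ J t = j')
      (fun t => 2 * t.val + (if σ t then 1 else 0)) (fun t => 2 * t.val) hk hl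
      (fun t => MonoidAlgebra.single (γ t) (1 : ℂ))
    simp only [and_assoc] at h
    rw [h]
    apply Finset.sum_congr rfl
    intro t _
    by_cases hP : I t = i ∧ J t = j'
    · rw [if_pos hP, if_pos hP, neg_pow_even, mul_one, pow_add, neg_pow_even, one_mul]
      by_cases hs : σ t = true <;> simp [hs]
    · rw [if_neg hP, if_neg hP]
  · rw [mulT_inr]
    simp only [mul_inl, base, hat, mul_zero, Finset.sum_const_zero]
  · rw [mulT_inl]
    simp only [mul_inl, base, hat, mat]
    have h := two (R := MonoidAlgebra ℂ G) (fun t : Fin N => I t = i' ∧ J t = j)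
      (fun t => 2 * t.val) (fun t => 2 * t.val + (if σ t then 1 else 0)) hl hk
      (fun t => MonoidAlgebra.single (γ t)⁻¹ (1 : ℂ))
    have e : ∀ (k l : Fin (2 * N + 1)), (∑ t : Fin N, if I t = i' ∧ J t = j ∧
        l.val = 2 * t.val + (if σ t = true then 1 else 0) ∧ k.val = 2 * t.val then
        MonoidAlgebra.single (γ t)⁻¹ (1 : ℂ) else 0) =
        ∑ t : Fin N, if (I t = i' ∧ J t = j) ∧ k.val = 2 * t.val ∧
        l.val = 2 * t.val + (if σ t = true then 1 else 0) then
        MonoidAlgebra.single (γ t)⁻¹ (1 : ℂ) else 0 := by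
      intro k l
      refine Finset.sum_congr rfl fun t _ => if_congr ?_ rfl rfl
      tauto
    simp only [e]
    rw [h, cst_sum]
    apply Finset.sum_congr rfl
    intro t _
    by_cases hP : I t = i' ∧ J t = j
    · rw [if_pos hP, if_pos hP, neg_pow_even, one_mul, pow_add, neg_pow_even, one_mul, cst_single]
      by_cases hs : σ t = true <;> simp [hs]
    · rw [if_neg hP, if_neg hP, cst_zero]
  · rw [mulT_inl]
    simp only [mul_inl, base, hat, mul_zero, Finset.sum_const_zero, zero_mul]
  · rw [mulT_inr]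
    simp only [mul_inl, base, hat]
    rw [Finset.sum_eq_single (⟨2 * N, by omega⟩ : Fin (2 * N + 1))]
    · simp only [true_and]
      rw [neg_pow_even, one_mul]
    · intro k _ hk'
      have : ¬ (k.val = 2 * N) := fun h => hk' (Fin.ext h)
      simp [this]
    · simp
  · rw [mulT_inl]
    simp only [mul_inr, base, hat, zero_mul, Finset.sum_const_zero]
  · rw [mulT_inl]
    simp only [mul_inr, base, hat]
    rw [Finset.sum_eq_single (⟨2 * N, by omega⟩ : Fin (2 * N + 1))]
    · simp only [true_and]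
      rw [neg_pow_even, mul_one]
    · intro k _ hk'
      have : ¬ (k.val = 2 * N) := fun h => hk' (Fin.ext h)
      simp [this]
    · simp
  · rw [mulT_inr, mul_inr]
    simp only [base, hat]

end Pool.Agent.H57.AC
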