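import Pool.Agent.H57.AC.Stm0

set_option autoImplicit false

/-! AC-DEG (helper39): a row of the adjacency matrix has at most three entries. -/

noncomputable section

open Matrix

namespace Pool.Agent.H57.AC

namespace DEG

/-- the number of terms -/
def cd {G : Type} [Group G] (x : MonoidAlgebra ℂ G) : ℕ := x.coeff.support.card

variable {G : Type} [Group G]

lemma cd_zero : cd (0 : MonoidAlgebra ℂ G) = 0 := by simp [cd]

lemma cd_single (g : G) (r : ℂ) : cd (MonoidAlgebra.single g r) ≤ 1 := by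
  unfold cd
  rw [MonoidAlgebra.coeff_single]
  exact (Finset.card_le_card Finsupp.support_single_subset).trans (by simp)

lemma cd_one : cd (1 : MonoidAlgebra ℂ G) ≤ 1 := cd_single _ _

lemma cd_add (x y : MonoidAlgebra ℂ G) : cd (x + y) ≤ cd x + cd y := by
  classical
  unfold cd
  rw [MonoidAlgebra.coeff_add]
  exact (Finset.card_le_card Finsupp.support_add).trans (Finset.card_union_le _ _)

lemma cd_ite (p : Prop) [Decidable p] (x : MonoidAlgebra ℂ G) (hx : cd x ≤ 1) :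
    cd (if p then x else 0) ≤ if p then 1 else 0 := by
  split_ifs with h
  · exact hx
  · rw [cd_zero]

lemma cd_sum {N : ℕ} (P : Fin N → Prop) [DecidablePred P] (γ : Fin N → G) :
    cd (∑ t : Fin N, if P t then MonoidAlgebra.single (γ t) (1 : ℂ) else 0) ≤
      ∑ t : Fin N, if P t then 1 else 0 := by
  classical
  have : ∀ s : Finset (Fin N), cd (∑ t ∈ s, if P t then MonoidAlgebra.single (γ t) (1 : ℂ) else 0) ≤
      ∑ t ∈ s, if P t then 1 else 0 := by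
    intro s
    induction s using Finset.induction_on with
    | empty => simp [cd_zero]
    | insert a s ha ih =>
      rw [Finset.sum_insert ha, Finset.sum_insert ha]
      exact (cd_add _ _).trans (add_le_add (cd_ite _ _ (cd_single _ _)) ih)
  exact this _

lemma count_le_one {α : Type} [Fintype α] (P : α → Prop) [DecidablePred P]
    (h : ∀ a b, P a → P b → a = b) : (∑ a, if P a then 1 else 0 : ℕ) ≤ 1 := by
  rw [← Finset.card_filter]
  exact Finset.card_le_one.2 fun a ha b hb =>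
    h a b (Finset.mem_filter.1 ha).2 (Finset.mem_filter.1 hb).2

lemma count_or {α : Type} [Fintype α] (P Q : α → Prop) [DecidablePred P] [DecidablePred Q]
    (h : ∀ a b, P a → P b → a = b) (h' : ∀ a b, Q a → Q b → a = b) :
    (∑ a, if P a ∨ Q a then 1 else 0 : ℕ) ≤ 2 := by
  have e : (∑ a, if P a ∨ Q a then 1 else 0 : ℕ) ≤ (∑ a, if P a then 1 else 0) + ∑ a, if Q a then 1 else 0 := by
    rw [← Finset.sum_add_distrib]
    refine Finset.sum_le_sum fun a _ => ?_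
    by_cases h1 : P a <;> by_cases h2 : Q a <;> simp [h1, h2]
  exact e.trans (add_le_add (count_le_one P h) (count_le_one Q h'))

section dd

variable (V Q : Type) [Fintype V] [Fintype Q] [DecidableEq V] [DecidableEq Q] (K : ℕ)

lemma dd_row (a : V × Fin K) :
    ∑ b, cd (dd (MonoidAlgebra ℂ G) V Q K a b) ≤ 2 := by
  rw [Fintype.sum_sum_type]
  have e2 : ∑ x : Q, cd (dd (MonoidAlgebra ℂ G) V Q K a (Sum.inr x)) = 0 := by
    refine Finset.sum_eq_zero fun x _ => ?_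
    show cd (0 : MonoidAlgebra ℂ G) = 0
    exact cd_zero
  rw [e2, add_zero]
  have e1 : ∀ x : V × Fin (K + 1), cd (dd (MonoidAlgebra ℂ G) V Q K a (Sum.inl x)) ≤
      if (a.1 = x.1 ∧ x.2.val = a.2.val) ∨ (a.1 = x.1 ∧ x.2.val = a.2.val + 1) then 1 else 0 := by
    intro x
    have := cd_ite (G := G) (a.1 = x.1 ∧ (x.2.val = a.2.val ∨ x.2.val = a.2.val + 1)) 1 cd_one
    refine le_trans this (le_of_eq ?_)
    simp only [and_or_left]
  refine (Finset.sum_le_sum fun x _ => e1 x).trans (count_or _ _ ?_ ?_)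
  · rintro ⟨x1, x2⟩ ⟨y1, y2⟩ ⟨h1, h2⟩ ⟨h3, h4⟩
    simp only at h1 h2 h3 h4
    exact Prod.ext (h1.symm.trans h3) (Fin.ext (h2.trans h4.symm))
  · rintro ⟨x1, x2⟩ ⟨y1, y2⟩ ⟨h1, h2⟩ ⟨h3, h4⟩
    simp only at h1 h2 h3 h4
    exact Prod.ext (h1.symm.trans h3) (Fin.ext (h2.trans h4.symm))

lemma dd_col (b : V × Fin (K + 1)) :
    ∑ a, cd ((dd (MonoidAlgebra ℂ G) V Q K)ᵀ (Sum.inl b) a) ≤ 2 := by
  have e1 : ∀ x : V × Fin K, cd ((dd (MonoidAlgebra ℂ G) V Q K)ᵀ (Sum.inl b) x) ≤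
      if (x.1 = b.1 ∧ b.2.val = x.2.val) ∨ (x.1 = b.1 ∧ b.2.val = x.2.val + 1) then 1 else 0 := by
    intro x
    have := cd_ite (G := G) (x.1 = b.1 ∧ (b.2.val = x.2.val ∨ b.2.val = x.2.val + 1)) 1 cd_one
    refine le_trans this (le_of_eq ?_)
    simp only [and_or_left]
  refine (Finset.sum_le_sum fun x _ => e1 x).trans (count_or _ _ ?_ ?_)
  · rintro ⟨x1, x2⟩ ⟨y1, y2⟩ ⟨h1, h2⟩ ⟨h3, h4⟩
    simp only at h1 h2 h3 h4
    exact Prod.ext (h1.trans h3.symm) (Fin.ext (h2.symm.trans h4))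
  · rintro ⟨x1, x2⟩ ⟨y1, y2⟩ ⟨h1, h2⟩ ⟨h3, h4⟩
    simp only at h1 h2 h3 h4
    exact Prod.ext (h1.trans h3.symm) (Fin.ext (by show x2.val = y2.val; omega))

lemma dd_col0 (b : Q) :
    ∑ a, cd ((dd (MonoidAlgebra ℂ G) V Q K)ᵀ (Sum.inr b) a) = 0 := by
  refine Finset.sum_eq_zero fun x _ => ?_
  show cd (0 : MonoidAlgebra ℂ G) = 0
  exact cd_zero

end dd

section base

variable {m n N : ℕ} (I : Fin N → Fin m) (J : Fin N → Fin n) (γ : Fin N → G) (σ : Fin N → Bool)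

lemma base_row1 (i : Fin m) (k : Fin (2 * N + 1)) :
    ∑ b, cd (base I J γ σ (Sum.inl (Sum.inl i, k)) b) ≤ 1 := by
  rw [Fintype.sum_sum_type, Fintype.sum_prod_type, Fintype.sum_sum_type]
  have e1 : ∑ x : Fin n × Fin 3, cd (base I J γ σ (Sum.inl (Sum.inl i, k)) (Sum.inr x)) = 0 :=
    Finset.sum_eq_zero fun x _ => cd_zero
  have e2 : ∑ x : Fin m, ∑ y : Fin (2 * N + 1),
      cd (base I J γ σ (Sum.inl (Sum.inl i, k)) (Sum.inl (Sum.inl x, y))) = 0 :=
    Finset.sum_eq_zero fun x _ => Finset.sum_eq_zero fun y _ => cd_zero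
  rw [e1, e2, zero_add, add_zero]
  have e3 : ∑ j : Fin n, ∑ l : Fin (2 * N + 1),
      cd (base I J γ σ (Sum.inl (Sum.inl i, k)) (Sum.inl (Sum.inr j, l))) ≤
      ∑ j : Fin n, ∑ l : Fin (2 * N + 1), ∑ t : Fin N,
        if I t = i ∧ J t = j ∧ k.val = 2 * t.val + (if σ t then 1 else 0) ∧ l.val = 2 * t.val then 1
          else 0 :=
    Finset.sum_le_sum fun j _ => Finset.sum_le_sum fun l _ => cd_sum _ _
  refine e3.trans ?_
  have e4 := count_le_one (α := Fin n × Fin (2 * N + 1) × Fin N)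
    (fun x => I x.2.2 = i ∧ J x.2.2 = x.1 ∧ k.val = 2 * x.2.2.val + (if σ x.2.2 then 1 else 0) ∧
      x.2.1.val = 2 * x.2.2.val) (by
      rintro ⟨x1, x2, x3⟩ ⟨y1, y2, y3⟩ ⟨h1, h2, h3, h4⟩ ⟨h5, h6, h7, h8⟩
      simp only at h1 h2 h3 h4 h5 h6 h7 h8
      have e : x3 = y3 := by
        apply Fin.ext
        split_ifs at h3 h7 <;> omega
      subst e
      rw [← h2, ← h6]
      have e' : x2 = y2 := Fin.ext (h4.trans h8.symm)
      rw [e'])
  rw [Fintype.sum_prod_type] at e4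
  simp only [Fintype.sum_prod_type] at e4
  exact e4

lemma base_row2 (j : Fin n) (l : Fin (2 * N + 1)) :
    ∑ b, cd (base I J γ σ (Sum.inl (Sum.inr j, l)) b) ≤ 1 := by
  rw [Fintype.sum_sum_type, Fintype.sum_prod_type, Fintype.sum_sum_type]
  have e2 : ∑ x : Fin n, ∑ y : Fin (2 * N + 1),
      cd (base I J γ σ (Sum.inl (Sum.inr j, l)) (Sum.inl (Sum.inr x, y))) = 0 :=
    Finset.sum_eq_zero fun x _ => Finset.sum_eq_zero fun y _ => cd_zero
  rw [e2, add_zero]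
  have e3 : ∑ i : Fin m, ∑ k : Fin (2 * N + 1),
      cd (base I J γ σ (Sum.inl (Sum.inr j, l)) (Sum.inl (Sum.inl i, k))) ≤
      ∑ i : Fin m, ∑ k : Fin (2 * N + 1), ∑ t : Fin N,
        if I t = i ∧ J t = j ∧ k.val = 2 * t.val + (if σ t then 1 else 0) ∧ l.val = 2 * t.val then 1
          else 0 :=
    Finset.sum_le_sum fun i _ => Finset.sum_le_sum fun k _ =>
      cd_sum (fun t => I t = i ∧ J t = j ∧ k.val = 2 * t.val + (if σ t then 1 else 0) ∧
        l.val = 2 * t.val) (fun t => (γ t)⁻¹)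
  have e5 : ∑ x : Fin n × Fin 3, cd (base I J γ σ (Sum.inl (Sum.inr j, l)) (Sum.inr x)) ≤
      ∑ x : Fin n × Fin 3, if j = x.1 ∧ l.val = 2 * N ∧ x.2 = 0 then 1 else 0 :=
    Finset.sum_le_sum fun x _ => cd_ite _ _ cd_one
  by_cases hl : l.val = 2 * N
  · have e4 : ∑ i : Fin m, ∑ k : Fin (2 * N + 1), ∑ t : Fin N,
        (if I t = i ∧ J t = j ∧ k.val = 2 * t.val + (if σ t then 1 else 0) ∧ l.val = 2 * t.val then 1
          else 0 : ℕ) = 0 := by
      refine Finset.sum_eq_zero fun i _ => Finset.sum_eq_zero fun k _ => Finset.sum_eq_zero fun t _ => ?_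
      rw [if_neg]
      rintro ⟨-, -, -, h⟩
      have := t.2
      omega
    have e6 := count_le_one (α := Fin n × Fin 3) (fun x => j = x.1 ∧ l.val = 2 * N ∧ x.2 = 0) (by
      rintro ⟨x1, x2⟩ ⟨y1, y2⟩ ⟨h1, h2, h3⟩ ⟨h4, h5, h6⟩
      simp only at h1 h3 h4 h6
      rw [← h1, ← h4, h3, h6])
    omega
  · have e4 : ∑ x : Fin n × Fin 3, (if j = x.1 ∧ l.val = 2 * N ∧ x.2 = 0 then 1 else 0 : ℕ) = 0 := by
      refine Finset.sum_eq_zero fun x _ => ?_
      rw [if_neg]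
      rintro ⟨-, h, -⟩
      exact hl h
    have e6 := count_le_one (α := Fin m × Fin (2 * N + 1) × Fin N)
      (fun x => I x.2.2 = x.1 ∧ J x.2.2 = j ∧ x.2.1.val = 2 * x.2.2.val + (if σ x.2.2 then 1 else 0) ∧
        l.val = 2 * x.2.2.val) (by
        rintro ⟨x1, x2, x3⟩ ⟨y1, y2, y3⟩ ⟨h1, h2, h3, h4⟩ ⟨h5, h6, h7, h8⟩
        simp only at h1 h2 h3 h4 h5 h6 h7 h8
        have e : x3 = y3 := by
          apply Fin.ext
          omega
        subst e
        rw [← h1, ← h5]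
        have e' : x2 = y2 := Fin.ext (h3.trans h7.symm)
        rw [e'])
    rw [Fintype.sum_prod_type] at e6
    simp only [Fintype.sum_prod_type] at e6
    omega

lemma base_row3 (c : Fin n × Fin 3) :
    ∑ b, cd (base I J γ σ (Sum.inr c) b) ≤ 3 := by
  rw [Fintype.sum_sum_type, Fintype.sum_prod_type, Fintype.sum_sum_type]
  have e2 : ∑ x : Fin m, ∑ y : Fin (2 * N + 1),
      cd (base I J γ σ (Sum.inr c) (Sum.inl (Sum.inl x, y))) = 0 :=
    Finset.sum_eq_zero fun x _ => Finset.sum_eq_zero fun y _ => cd_zero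
  rw [e2, zero_add]
  have e3 : ∑ j : Fin n, ∑ l : Fin (2 * N + 1),
      cd (base I J γ σ (Sum.inr c) (Sum.inl (Sum.inr j, l))) ≤
      ∑ j : Fin n, ∑ l : Fin (2 * N + 1),
        if j = c.1 ∧ l.val = 2 * N ∧ c.2 = 0 then 1 else 0 :=
    Finset.sum_le_sum fun i _ => Finset.sum_le_sum fun k _ => cd_ite _ _ cd_one
  have e4 := count_le_one (α := Fin n × Fin (2 * N + 1))
    (fun x => x.1 = c.1 ∧ x.2.val = 2 * N ∧ c.2 = 0) (by
      rintro ⟨x1, x2⟩ ⟨y1, y2⟩ ⟨h1, h2, h3⟩ ⟨h4, h5, h6⟩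
      simp only at h1 h2 h4 h5
      exact Prod.ext (h1.trans h4.symm) (Fin.ext (h2.trans h5.symm)))
  rw [Fintype.sum_prod_type] at e4
  simp only at e4
  have e5 : ∑ x : Fin n × Fin 3, cd (base I J γ σ (Sum.inr c) (Sum.inr x)) ≤
      ∑ x : Fin n × Fin 3, if c.1 = x.1 ∧ c.2 ≠ x.2 then 1 else 0 :=
    Finset.sum_le_sum fun x _ => cd_ite _ _ cd_one
  have e6 : ∑ x : Fin n × Fin 3, (if c.1 = x.1 ∧ c.2 ≠ x.2 then 1 else 0 : ℕ) ≤ 2 := by
    have h0 := count_or (α := Fin n × Fin 3) (fun x => c.1 = x.1 ∧ x.2 = c.2 + 1)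
      (fun x => c.1 = x.1 ∧ x.2 = c.2 + 2) (by
        rintro ⟨x1, x2⟩ ⟨y1, y2⟩ ⟨h1, h2⟩ ⟨h3, h4⟩
        simp only at h1 h2 h3 h4
        exact Prod.ext (h1.symm.trans h3) (h2.trans h4.symm)) (by
        rintro ⟨x1, x2⟩ ⟨y1, y2⟩ ⟨h1, h2⟩ ⟨h3, h4⟩
        simp only at h1 h2 h3 h4
        exact Prod.ext (h1.symm.trans h3) (h2.trans h4.symm))
    refine le_trans (Finset.sum_le_sum fun x _ => ?_) h0
    have h3 : ∀ a b : Fin 3, a ≠ b → b = a + 1 ∨ b = a + 2 := by decide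
    by_cases h1 : c.1 = x.1 ∧ c.2 ≠ x.2
    · rw [if_pos h1, if_pos]
      rcases h3 _ _ h1.2 with h | h
      · exact Or.inl ⟨h1.1, h⟩
      · exact Or.inr ⟨h1.1, h⟩
    · rw [if_neg h1]; exact Nat.zero_le _
  omega

end base

end DEG

open DEG in
theorem deg : S_DEG := by
  intro G _ m n N I J γ σ w
  show ∑ w', cd (tot I J γ σ w w') ≤ 3
  rw [Fintype.sum_sum_type]
  rcases w with w | w
  · have e1 : ∀ x, tot I J γ σ (Sum.inl w) (Sum.inl x) = base I J γ σ w x := fun x => rfl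
    have e2 : ∀ x, tot I J γ σ (Sum.inl w) (Sum.inr x) =
      (dd (MonoidAlgebra ℂ G) (Fin m ⊕ Fin n) (Fin n × Fin 3) (2 * N))ᵀ w x := fun x => rfl
    simp only [e1, e2]
    rcases w with ⟨v, k⟩ | c
    · have h2 := dd_col (G := G) (Fin m ⊕ Fin n) (Fin n × Fin 3) (2 * N) (v, k)
      rcases v with i | j
      · have h1 := base_row1 I J γ σ i k
        omega
      · have h1 := base_row2 I J γ σ j k
        omega
    · have h2 := dd_col0 (G := G) (Fin m ⊕ Fin n) (Fin n × Fin 3) (2 * N) c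
      have h1 := base_row3 I J γ σ c
      omega
  · have e1 : ∀ x, tot I J γ σ (Sum.inr w) (Sum.inl x) =
      dd (MonoidAlgebra ℂ G) (Fin m ⊕ Fin n) (Fin n × Fin 3) (2 * N) w x := fun x => rfl
    have e2 : ∀ x, tot I J γ σ (Sum.inr w) (Sum.inr x) = 0 := fun x => rfl
    simp only [e1, e2, cd_zero, Finset.sum_const_zero, add_zero]
    have h2 := dd_row (G := G) (Fin m ⊕ Fin n) (Fin n × Fin 3) (2 * N) w
    omega

end Pool.Agent.H57.AC
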