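import Mathlib

/-!
# Cubic graphs with a free cocompact action of a group: definitions
-/

set_option autoImplicit false

noncomputable section

namespace Pool.Agent.H57.AC

/-- `Γ` is a simple graph on `Fin n × G`, all vertices have at most three neighbours, and `G` acts on `Γ` by
left translations. So `G` acts freely on the set of vertices, with `n` orbits. -/
structure IsCubic {G : Type} [Group G] {n : ℕ} (Γ : SimpleGraph (Fin n × G)) : Prop where
  inv : ∀ (g : G) (i j : Fin n) (a b : G), Γ.Adj (i, a) (j, b) → Γ.Adj (i, g * a) (j, g * b)
  deg : ∀ v, (Γ.neighborSet v).Finite ∧ (Γ.neighborSet v).ncard ≤ 3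

/-- The kernel of the adjacency operator: the square summable functions `x` on the set of vertices with
`∑ x w = 0`, the sum over the neighbours `w` of `v`, for all vertices `v`. -/
def nullspace {G : Type} {n : ℕ} (Γ : SimpleGraph (Fin n × G)) :
    Set (lp (fun _ : Fin n × G => ℂ) 2) :=
  {x | ∀ v, ∑ᶠ w ∈ Γ.neighborSet v, x w = 0}

open Classical in
/-- The nullity: the von Neumann dimension of the kernel of the adjacency operator, that is, the trace of
the orthogonal projection onto the kernel, the sum over `i` of one minus the squared distance from the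
basis vector at `(i, 1)` to the kernel. -/
def nullity {G : Type} [Group G] {n : ℕ} (Γ : SimpleGraph (Fin n × G)) : ℝ :=
  ∑ i : Fin n, (1 - (Metric.infDist
    (lp.single 2 (i, (1 : G)) (1 : ℂ) : lp (fun _ : Fin n × G => ℂ) 2) (nullspace Γ)) ^ 2)

end Pool.Agent.H57.AC
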