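import Pool.Agent.H57.AC.Stm

/-! Stub AC-FROM: from the matrix to the graph. -/

set_option autoImplicit false

noncomputable section

open Matrix TH57.Thr.Ati Pool.Agent.W649.ZL Pool.Agent.Q102.TT

namespace Pool.Agent.H57.AC

/-- the graph of a matrix -/
def graphOf {G : Type} [Group G] {W : Type} [Fintype W] (T : Matrix W W (MonoidAlgebra ℂ G))
    (hT : Good T) {M : ℕ} (e : Fin M ≃ W) : SimpleGraph (Fin M × G) where
  Adj := fun v w => (T (e v.1) (e w.1)).coeff (v.2⁻¹ * w.2) = 1
  symm := ⟨by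
    intro v w h
    rw [hT.symm, _root_.mul_inv_rev, inv_inv]
    exact h⟩
  loopless := ⟨by
    intro v h
    rw [inv_mul_cancel, hT.diag] at h
    exact zero_ne_one h⟩

theorem from_good : S_FROM := by
  classical
  intro hgr G _ W _ _ T hT
  let e : Fin (Fintype.card W) ≃ W := (Fintype.equivFin W).symm
  let Γ : SimpleGraph (Fin (Fintype.card W) × G) := graphOf T hT e
  have hadj : ∀ v w, Γ.Adj v w ↔ (T (e v.1) (e w.1)).coeff (v.2⁻¹ * w.2) = 1 := fun v w => Iff.rfl
  have hnb : ∀ v : Fin (Fintype.card W) × G, Γ.neighborSet v =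
      ↑(((Finset.univ : Finset (Fin (Fintype.card W))).sigma
        fun j => (T (e v.1) (e j)).coeff.support).image
        (fun p : (Σ _ : Fin (Fintype.card W), G) => (p.1, v.2 * p.2))) := by
    intro v
    ext ⟨j, b⟩
    rw [SimpleGraph.mem_neighborSet, hadj, Finset.mem_coe, Finset.mem_image]
    constructor
    · intro h
      refine ⟨⟨j, v.2⁻¹ * b⟩, ?_, ?_⟩
      · rw [Finset.mem_sigma]
        refine ⟨Finset.mem_univ _, ?_⟩
        rw [Finsupp.mem_support_iff]
        change (T (e v.1) (e j)).coeff (v.2⁻¹ * b) ≠ 0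
        rw [h]
        exact one_ne_zero
      · change (j, v.2 * (v.2⁻¹ * b)) = (j, b)
        rw [mul_inv_cancel_left]
    · rintro ⟨⟨j', h⟩, hm, he⟩
      rw [Finset.mem_sigma] at hm
      have he1 : j' = j := congrArg Prod.fst he
      have he2 : v.2 * h = b := congrArg Prod.snd he
      subst he1
      subst he2
      have h1 : (T (e v.1) (e j')).coeff h ≠ 0 := Finsupp.mem_support_iff.1 hm.2
      change (T (e v.1) (e j')).coeff (v.2⁻¹ * (v.2 * h)) = 1
      rw [inv_mul_cancel_left]
      rcases hT.zo (e v.1) (e j') h with h2 | h2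
      · exact absurd h2 h1
      · exact h2
  have hcub : IsCubic Γ := by
    refine ⟨?_, ?_⟩
    · intro g i j a b h
      rw [hadj] at h ⊢
      change (T (e i) (e j)).coeff ((g * a)⁻¹ * (g * b)) = 1
      have : (g * a)⁻¹ * (g * b) = a⁻¹ * b := by group
      rw [this]
      exact h
    · intro v
      rw [hnb v]
      refine ⟨Finset.finite_toSet _, ?_⟩
      rw [Set.ncard_coe_finset]
      refine Finset.card_image_le.trans ?_
      rw [Finset.card_sigma]
      refine le_trans (le_of_eq ?_) (hT.deg (e v.1))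
      exact Fintype.sum_equiv e _ _ fun _ => rfl
  refine ⟨Fintype.card W, Γ, hcub, ?_⟩
  rw [hgr Γ hcub (T.submatrix e e), kap_re]
  intro i j g
  change (T (e i) (e j)).coeff g = _
  have h3 : Γ.Adj (i, 1) (j, g) ↔ (T (e i) (e j)).coeff g = 1 := by
    rw [hadj]
    change (T (e i) (e j)).coeff ((1 : G)⁻¹ * g) = 1 ↔ _
    rw [inv_one, one_mul]
  by_cases hc : (T (e i) (e j)).coeff g = 1
  · rw [if_pos (h3.2 hc), hc]
  · rw [if_neg (fun h => hc (h3.1 h))]
    rcases hT.zo (e i) (e j) g with h4 | h4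
    · exact h4
    · exact absurd h4 hc

end Pool.Agent.H57.AC
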