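import Pool.Agent.H57.AC.Stm0

set_option autoImplicit false

noncomputable section

open Matrix

namespace Pool.Agent.H57.AC

namespace GOODx

variable {G : Type} [Group G]

/-- the coefficients are `0` or `1` -/
def Z (x : MonoidAlgebra ℂ G) : Prop := ∀ g, x.coeff g = 0 ∨ x.coeff g = 1

/-- `y` is the transpose of `x` -/
def S (x y : MonoidAlgebra ℂ G) : Prop := ∀ g, x.coeff g = y.coeff g⁻¹

open Classical in
theorem g_one (g : G) : (1 : MonoidAlgebra ℂ G).coeff g = if g = 1 then 1 else 0 := by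
  rw [MonoidAlgebra.one_def, MonoidAlgebra.coeff_single_apply]
  by_cases h : g = 1
  · simp [h]
  · simp [h, Ne.symm h]

theorem Z_zero : Z (0 : MonoidAlgebra ℂ G) := fun g => Or.inl (by simp)

theorem Z_ite (P : Prop) [Decidable P] : Z (if P then (1 : MonoidAlgebra ℂ G) else 0) := by
  intro g
  by_cases h : P
  · rw [if_pos h, g_one]
    by_cases h' : g = 1
    · right; simp [h']
    · left; simp [h']
  · rw [if_neg h]; exact Z_zero g

theorem sum_cases {N : ℕ} (c : Fin N → Prop) [DecidablePred c]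
    (hc : ∀ t t', c t → c t' → t = t') (x : Fin N → MonoidAlgebra ℂ G) :
    (∃ t, c t ∧ (∑ t : Fin N, if c t then x t else 0) = x t) ∨
      ((∀ t, ¬ c t) ∧ (∑ t : Fin N, if c t then x t else 0) = 0) := by
  by_cases h : ∃ t, c t
  · obtain ⟨t0, ht0⟩ := h
    left
    refine ⟨t0, ht0, ?_⟩
    rw [Finset.sum_eq_single t0]
    · rw [if_pos ht0]
    · intro t _ ht
      rw [if_neg]
      intro hct
      exact ht (hc _ _ hct ht0)
    · intro h; exact absurd (Finset.mem_univ _) h
  · right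
    push Not at h
    refine ⟨h, Finset.sum_eq_zero ?_⟩
    intro t _
    rw [if_neg (h t)]

open Classical in
theorem Z_sum {N : ℕ} (c : Fin N → Prop) [DecidablePred c]
    (hc : ∀ t t', c t → c t' → t = t') (γ : Fin N → G) :
    Z (∑ t : Fin N, if c t then MonoidAlgebra.single (γ t) (1 : ℂ) else 0) := by
  rcases sum_cases c hc (fun t => MonoidAlgebra.single (γ t) (1 : ℂ)) with ⟨t, -, h⟩ | ⟨-, h⟩
  · intro g
    simp only [h]
    rw [MonoidAlgebra.coeff_single_apply]
    split_ifs
    · right; rfl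
    · left; rfl
  · rw [h]; exact Z_zero

theorem S_zero : S (0 : MonoidAlgebra ℂ G) 0 := fun g => by simp

theorem S_ite (P Q : Prop) [Decidable P] [Decidable Q] (h : P ↔ Q) :
    S (if P then (1 : MonoidAlgebra ℂ G) else 0) (if Q then (1 : MonoidAlgebra ℂ G) else 0) := by
  intro g
  by_cases hP : P
  · rw [if_pos hP, if_pos (h.1 hP), g_one, g_one]
    by_cases hg : g = 1
    · rw [if_pos hg, if_pos (by rw [hg, inv_one])]
    · rw [if_neg hg, if_neg (fun h1 => hg (by rw [← inv_inv g, h1, inv_one]))]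
  · rw [if_neg hP, if_neg (fun hq => hP (h.2 hq))]; simp

open Classical in
theorem S_single (γ g : G) : (MonoidAlgebra.single γ (1 : ℂ)).coeff g =
    (MonoidAlgebra.single γ⁻¹ (1 : ℂ)).coeff g⁻¹ := by
  rw [MonoidAlgebra.coeff_single_apply, MonoidAlgebra.coeff_single_apply]
  by_cases h : γ = g
  · rw [if_pos h, if_pos (by rw [h])]
  · rw [if_neg h, if_neg (fun h1 => h (_root_.inv_inj.1 h1))]

open Classical in
theorem S_single' (γ g : G) : (MonoidAlgebra.single γ⁻¹ (1 : ℂ)).coeff g =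
    (MonoidAlgebra.single γ (1 : ℂ)).coeff g⁻¹ := by
  rw [MonoidAlgebra.coeff_single_apply, MonoidAlgebra.coeff_single_apply]
  by_cases h : γ⁻¹ = g
  · rw [if_pos h, if_pos (by rw [← h, inv_inv])]
  · rw [if_neg h, if_neg (fun h1 => h (by rw [h1, inv_inv]))]

theorem S_sum {N : ℕ} (c : Fin N → Prop) [DecidablePred c] (γ : Fin N → G) :
    S (∑ t : Fin N, if c t then MonoidAlgebra.single (γ t) (1 : ℂ) else 0)
      (∑ t : Fin N, if c t then MonoidAlgebra.single (γ t)⁻¹ (1 : ℂ) else 0) := by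
  intro g
  rw [MonoidAlgebra.coeff_sum, MonoidAlgebra.coeff_sum, Finsupp.finsetSum_apply,
    Finsupp.finsetSum_apply]
  apply Finset.sum_congr rfl
  intro t _
  by_cases h : c t
  · rw [if_pos h, if_pos h]; exact S_single _ _
  · rw [if_neg h, if_neg h]; simp

theorem S_sum' {N : ℕ} (c : Fin N → Prop) [DecidablePred c] (γ : Fin N → G) :
    S (∑ t : Fin N, if c t then MonoidAlgebra.single (γ t)⁻¹ (1 : ℂ) else 0)
      (∑ t : Fin N, if c t then MonoidAlgebra.single (γ t) (1 : ℂ) else 0) := by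
  intro g
  rw [MonoidAlgebra.coeff_sum, MonoidAlgebra.coeff_sum, Finsupp.finsetSum_apply,
    Finsupp.finsetSum_apply]
  apply Finset.sum_congr rfl
  intro t _
  by_cases h : c t
  · rw [if_pos h, if_pos h]; exact S_single' _ _
  · rw [if_neg h, if_neg h]; simp

end GOODx

open GOODx

theorem good1 : S_GOOD1 := by
  intro G _ m n N I J γ σ
  refine ⟨?_, ?_, ?_⟩
  · intro w w'
    change Z (tot I J γ σ w w')
    rcases w with ((⟨i | j, k⟩ | c) | ⟨v, k⟩) <;> rcases w' with ((⟨i' | j', k'⟩ | c') | ⟨v', k'⟩)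
    all_goals first
      | exact Z_zero
      | exact Z_ite _
      | skip
    · exact Z_sum (fun t => I t = i ∧ J t = j' ∧ k.val = 2 * t.val + (if σ t then 1 else 0) ∧
        k'.val = 2 * t.val) (fun t t' h h' => Fin.ext (by
          have h1 := h.2.2.2
          have h2 := h'.2.2.2
          omega)) γ
    · exact Z_sum (fun t => I t = i' ∧ J t = j ∧ k'.val = 2 * t.val + (if σ t then 1 else 0) ∧
        k.val = 2 * t.val) (fun t t' h h' => Fin.ext (by
          have h1 := h.2.2.2
          have h2 := h'.2.2.2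
          omega)) (fun t => (γ t)⁻¹)
  · intro w w'
    change S (tot I J γ σ w w') (tot I J γ σ w' w)
    rcases w with ((⟨i | j, k⟩ | c) | ⟨v, k⟩) <;> rcases w' with ((⟨i' | j', k'⟩ | c') | ⟨v', k'⟩)
    all_goals first
      | exact S_zero
      | exact S_ite _ _ Iff.rfl
      | skip
    · exact S_sum (fun t => I t = i ∧ J t = j' ∧ k.val = 2 * t.val + (if σ t then 1 else 0) ∧
        k'.val = 2 * t.val) γ
    · exact S_sum' (fun t => I t = i' ∧ J t = j ∧ k'.val = 2 * t.val + (if σ t then 1 else 0) ∧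
        k.val = 2 * t.val) γ
    · exact S_ite _ _ ⟨fun h => ⟨h.1.symm, h.2.symm⟩, fun h => ⟨h.1.symm, h.2.symm⟩⟩
  · intro w
    rcases w with ((⟨i | j, k⟩ | c) | ⟨v, k⟩)
    · change (0 : MonoidAlgebra ℂ G).coeff 1 = 0
      simp
    · change (0 : MonoidAlgebra ℂ G).coeff 1 = 0
      simp
    · change (if c.1 = c.1 ∧ c.2 ≠ c.2 then (1 : MonoidAlgebra ℂ G) else 0).coeff 1 = 0
      simp
    · change (0 : MonoidAlgebra ℂ G).coeff 1 = 0
      simp

end Pool.Agent.H57.AC
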