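import Pool.Agent.H57.AC.Stm

/-! Stub AC-GR: the nullity of a cubic graph is the dimension of the kernel of its matrix. -/

set_option autoImplicit false

noncomputable section

open Matrix TH57.Thr.Ati Pool.Agent.W649.ZL Pool.Agent.Q102.TT

namespace Pool.Agent.H57.AC

open Classical in
theorem gr_sum {G : Type} [Group G] {n : ℕ} (Γ : SimpleGraph (Fin n × G)) (hΓ : IsCubic Γ)
    (A : Matrix (Fin n) (Fin n) (MonoidAlgebra ℂ G))
    (hA : ∀ i j g, (A i j).coeff g = if Γ.Adj (i, 1) (j, g) then 1 else 0)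
    (x : Fin n × G → ℂ) (j : Fin n) (g : G) :
    ∑ᶠ w ∈ Γ.neighborSet (j, g), x w = ∑ k : Fin n, ∑ h ∈ (A k j).coeff.support,
      x (k, g * h⁻¹) * (A k j).coeff h := by
  have hsupp : ∀ (k : Fin n) (h : G), h ∈ (A k j).coeff.support ↔ Γ.Adj (k, 1) (j, h) := by
    intro k h
    rw [Finsupp.mem_support_iff, hA]
    split_ifs with hc
    · simp [hc]
    · simp [hc]
  have hone : ∀ (k : Fin n) (h : G), h ∈ (A k j).coeff.support → (A k j).coeff h = 1 := by
    intro k h hh
    rw [hA, if_pos ((hsupp k h).1 hh)]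
  have hS : Γ.neighborSet (j, g) =
      ↑(((Finset.univ : Finset (Fin n)).sigma fun k => (A k j).coeff.support).image
        (fun p : (Σ _ : Fin n, G) => (p.1, g * p.2⁻¹))) := by
    ext ⟨k, a⟩
    rw [SimpleGraph.mem_neighborSet, Finset.mem_coe, Finset.mem_image]
    constructor
    · intro h
      refine ⟨⟨k, a⁻¹ * g⟩, ?_, ?_⟩
      · rw [Finset.mem_sigma]
        refine ⟨Finset.mem_univ _, ?_⟩
        rw [hsupp]
        have h1 := hΓ.inv a⁻¹ k j a g h.symm
        rwa [inv_mul_cancel] at h1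
      · change (k, g * (a⁻¹ * g)⁻¹) = (k, a)
        rw [_root_.mul_inv_rev, inv_inv, mul_inv_cancel_left]
    · rintro ⟨⟨k', h⟩, hm, he⟩
      rw [Finset.mem_sigma] at hm
      have h1 := (hsupp k' h).1 hm.2
      have he1 : k' = k := congrArg Prod.fst he
      have he2 : g * h⁻¹ = a := congrArg Prod.snd he
      subst he1
      subst he2
      have h2 := hΓ.inv (g * h⁻¹) k' j 1 h h1
      rw [mul_one, inv_mul_cancel_right] at h2
      exact h2.symm
  rw [hS, finsum_mem_coe_finset, Finset.sum_image, Finset.sum_sigma]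
  · refine Finset.sum_congr rfl fun k _ => Finset.sum_congr rfl fun h hh => ?_
    rw [hone k h hh, mul_one]
  · rintro ⟨k, h⟩ _ ⟨k', h'⟩ _ he
    have he1 : k = k' := congrArg Prod.fst he
    have he2 : g * h⁻¹ = g * h'⁻¹ := congrArg Prod.snd he
    subst he1
    have he3 : h = h' := inv_injective (mul_left_cancel he2)
    rw [he3]

theorem gr : S_GR := by
  intro G _ n Γ hΓ A hA
  unfold nullity
  rw [← kerC_dim]
  have h1 : nullspace Γ = kerC A := by
    ext x
    constructor
    · intro hx j g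
      rw [← gr_sum Γ hΓ A hA]
      exact hx (j, g)
    · intro hx v
      obtain ⟨j, g⟩ := v
      rw [gr_sum Γ hΓ A hA]
      exact hx j g
  rw [h1]

end Pool.Agent.H57.AC
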