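import Pool.Agent.H57.AC.Stm0

/-! AC-LIST (helper19): every integer matrix over the group ring is a sum of elements `± g` at places -/

set_option autoImplicit false

noncomputable section

open Matrix

namespace Pool.Agent.H57.AC

namespace LISTx

variable {G : Type} [Group G] {m n : ℕ}

/-- the property of the theorem -/
def Pr (B : Matrix (Fin m) (Fin n) (MonoidAlgebra ℤ G)) : Prop :=
  ∃ (N : ℕ) (I : Fin N → Fin m) (J : Fin N → Fin n) (γ : Fin N → G) (σ : Fin N → Bool),
    B.map (MonoidAlgebra.mapRingHom G (Int.castRingHom ℂ)) = mat I J γ σ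

theorem pr_zero : Pr (0 : Matrix (Fin m) (Fin n) (MonoidAlgebra ℤ G)) := by
  refine ⟨0, Fin.elim0, Fin.elim0, Fin.elim0, Fin.elim0, ?_⟩
  ext i j : 2
  simp [mat]

theorem pr_add {A B : Matrix (Fin m) (Fin n) (MonoidAlgebra ℤ G)} (hA : Pr A) (hB : Pr B) :
    Pr (A + B) := by
  obtain ⟨N, I, J, γ, σ, h⟩ := hA
  obtain ⟨N', I', J', γ', σ', h'⟩ := hB
  refine ⟨N + N', Fin.append I I', Fin.append J J', Fin.append γ γ', Fin.append σ σ', ?_⟩
  rw [Matrix.map_add _ (map_add _), h, h']
  ext i j : 2
  simp only [mat, Matrix.add_apply, Fin.sum_univ_add, Fin.append_left, Fin.append_right]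

theorem pr_one (i : Fin m) (j : Fin n) (g : G) (s : Bool) :
    Pr (Matrix.single i j (MonoidAlgebra.single g (if s then -1 else 1 : ℤ))) := by
  refine ⟨1, fun _ => i, fun _ => j, fun _ => g, fun _ => s, ?_⟩
  ext a b : 2
  simp only [mat, Matrix.map_apply, Matrix.single_apply, Finset.univ_unique, Finset.sum_singleton]
  split_ifs <;> simp

theorem pr_int (i : Fin m) (j : Fin n) (g : G) (c : ℤ) :
    Pr (Matrix.single i j (MonoidAlgebra.single g c)) := by
  induction c using Int.induction_on with
  | zero =>
    simpa using (pr_zero : Pr (0 : Matrix (Fin m) (Fin n) (MonoidAlgebra ℤ G)))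
  | succ k ih =>
    have h := pr_add ih (pr_one i j g false)
    rw [← Matrix.single_add, ← MonoidAlgebra.single_add] at h
    simpa using h
  | pred k ih =>
    have h := pr_add ih (pr_one i j g true)
    rw [← Matrix.single_add, ← MonoidAlgebra.single_add] at h
    simpa [sub_eq_add_neg] using h

theorem pr_elt (i : Fin m) (j : Fin n) (x : MonoidAlgebra ℤ G) : Pr (Matrix.single i j x) := by
  induction x using MonoidAlgebra.induction_linear with
  | zero => simpa using (pr_zero : Pr (0 : Matrix (Fin m) (Fin n) (MonoidAlgebra ℤ G)))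
  | add x y hx hy =>
    rw [Matrix.single_add]
    exact pr_add hx hy
  | single g c => exact pr_int i j g c

end LISTx

open LISTx in
theorem list : S_LIST := by
  intro G _ m n B
  have h : Pr B := by
    rw [Matrix.matrix_eq_sum_single B]
    refine Finset.sum_induction _ Pr (fun _ _ => pr_add) pr_zero fun i _ => ?_
    refine Finset.sum_induction _ Pr (fun _ _ => pr_add) pr_zero fun j _ => ?_
    exact pr_elt i j (B i j)
  exact h

end Pool.Agent.H57.AC
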