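import Pool.Agent.H57.AC.Stm0

set_option autoImplicit false

/-! # AC-MAT (helper3) -/

namespace Pool.Agent.H57.AC

theorem mat_exists : S_MAT := by
  classical
  intro G _ n Γ hΓ
  have hfin : ∀ i j : Fin n, {g : G | Γ.Adj (i, 1) (j, g)}.Finite := by
    intro i j
    have h := (hΓ.deg (i, 1)).1
    refine Set.Finite.of_finite_image (f := fun g : G => ((j, g) : Fin n × G)) (h.subset ?_) ?_
    · rintro _ ⟨g, hg, rfl⟩
      exact hg
    · intro a _ b _ hab
      exact (Prod.mk.inj hab).2
  refine ⟨fun i j => Finsupp.onFinset (hfin i j).toFinset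
    (fun g => if Γ.Adj (i, 1) (j, g) then (1 : ℚ) else 0) ?_, ?_⟩
  · intro g hg
    rw [Set.Finite.mem_toFinset]
    by_contra h
    apply hg
    exact if_neg h
  · intro i j g
    rw [Finsupp.onFinset_apply]

end Pool.Agent.H57.AC
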