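import Pool.Agent.H57.AC.Stm0

/-! AC-PID: identities for paths. -/

set_option autoImplicit false

open Matrix

namespace Pool.Agent.H57.AC

namespace PIDx

/-- `C'` -/
def Cc (V Q : Type) [DecidableEq V] [DecidableEq Q] (K : ℕ) :
    Matrix ((V × Fin (K + 1)) ⊕ Q) (V ⊕ Q) ℤ := fun a b =>
  match a, b with
  | Sum.inl a, Sum.inl v => if a.1 = v then (if a.2.val = 0 then 1 else 0) else 0
  | Sum.inr q, Sum.inr q' => if q = q' then 1 else 0
  | _, _ => 0

/-- `D'` -/
def Dd (V Q : Type) [DecidableEq V] (K : ℕ) : Matrix (V × Fin K) ((V × Fin (K + 1)) ⊕ Q) ℤ :=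
  fun a b =>
  match b with
  | Sum.inl b => if a.1 = b.1 then
      (if a.2.val < b.2.val then (-1) ^ (b.2.val - a.2.val - 1) else 0) else 0
  | Sum.inr _ => 0

theorem sumA {V : Type} [Fintype V] [DecidableEq V] {n : ℕ} (v v' : V) (f g : Fin n → ℤ)
    (F G : V × Fin n → ℤ) (hF : ∀ p, F p = if v = p.1 then f p.2 else 0)
    (hG : ∀ p, G p = if v' = p.1 then g p.2 else 0) :
    ∑ p, F p * G p = if v = v' then ∑ l, f l * g l else 0 := by
  simp_rw [hF, hG]
  rw [Fintype.sum_prod_type, Finset.sum_eq_single v]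
  · by_cases h : v = v'
    · simp [h]
    · have h' : ¬ v' = v := fun h' => h h'.symm
      simp [h, h']
  · intro b _ hb
    have h' : ¬ v = b := fun h' => hb h'.symm
    simp [h']
  · intro h
    exact absurd (Finset.mem_univ v) h

/-- the two nodes of a link -/
theorem sum2 (K : ℕ) (k : Fin K) (g : ℕ → ℤ) :
    ∑ l : Fin (K + 1), g l.val * (if l.val = k.val ∨ l.val = k.val + 1 then (1 : ℤ) else 0) =
      g k.val + g (k.val + 1) := by
  rw [Fin.sum_univ_eq_sum_range
    (fun l => g l * (if l = k.val ∨ l = k.val + 1 then (1 : ℤ) else 0)) (K + 1)]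
  have h : ∀ l ∈ Finset.range (K + 1), g l * (if l = k.val ∨ l = k.val + 1 then (1 : ℤ) else 0) =
      (if k.val = l then g l else 0) + (if k.val + 1 = l then g l else 0) := by
    intro l _
    by_cases h1 : l = k.val
    · have h2 : ¬ k.val + 1 = l := by omega
      have h3 : k.val = l := h1.symm
      rw [if_pos (Or.inl h1), if_pos h3, if_neg h2, mul_one, add_zero]
    · by_cases h2 : l = k.val + 1
      · have h3 : ¬ k.val = l := fun h => h1 h.symm
        rw [if_pos (Or.inr h2), if_neg h3, if_pos h2.symm, mul_one, zero_add]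
      · have h3 : ¬ k.val = l := fun h => h1 h.symm
        have h4 : ¬ k.val + 1 = l := fun h => h2 h.symm
        rw [if_neg (not_or.2 ⟨h1, h2⟩), if_neg h3, if_neg h4, mul_zero, add_zero]
  have hk := k.isLt
  rw [Finset.sum_congr rfl h, Finset.sum_add_distrib, Finset.sum_ite_eq, Finset.sum_ite_eq,
    if_pos (Finset.mem_range.2 (by omega)), if_pos (Finset.mem_range.2 (by omega))]

/-- the links of a node -/
theorem sum3 (K l : ℕ) (hl : l ≤ K) (g : ℕ → ℤ) :
    ∑ k : Fin K, (if l = k.val ∨ l = k.val + 1 then (1 : ℤ) else 0) * g k.val =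
      (if l < K then g l else 0) + (if 1 ≤ l then g (l - 1) else 0) := by
  rw [Fin.sum_univ_eq_sum_range
    (fun k => (if l = k ∨ l = k + 1 then (1 : ℤ) else 0) * g k) K]
  have h : ∀ k ∈ Finset.range K, (if l = k ∨ l = k + 1 then (1 : ℤ) else 0) * g k =
      (if l = k then g k else 0) + (if l = k + 1 then g k else 0) := by
    intro k _
    by_cases h1 : l = k
    · have h2 : ¬ l = k + 1 := by omega
      rw [if_pos (Or.inl h1), if_pos h1, if_neg h2, one_mul, add_zero]
    · by_cases h2 : l = k + 1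
      · rw [if_pos (Or.inr h2), if_neg h1, if_pos h2, one_mul, zero_add]
      · rw [if_neg (not_or.2 ⟨h1, h2⟩), if_neg h1, if_neg h2, zero_mul, add_zero]
  rw [Finset.sum_congr rfl h, Finset.sum_add_distrib, Finset.sum_ite_eq]
  congr 1
  · simp [Finset.mem_range]
  · by_cases h1 : 1 ≤ l
    · rw [if_pos h1, Finset.sum_eq_single (l - 1)]
      · rw [if_pos (by omega)]
      · intro b _ hb
        rw [if_neg (by omega)]
      · intro h2
        rw [Finset.mem_range] at h2
        omega
    · rw [if_neg h1]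
      refine Finset.sum_eq_zero fun k _ => ?_
      rw [if_neg (by omega)]

section main

variable (V Q : Type) [Fintype V] [Fintype Q] [DecidableEq V] [DecidableEq Q] (K : ℕ)

theorem i1 : cc ℤ V Q K * Cc V Q K = 1 := by
  ext u u'
  rw [mul_apply, Fintype.sum_sum_type]
  rcases u with v | q <;> rcases u' with v' | q'
  · have h := sumA (n := K + 1) v v' (fun l => (-1) ^ l.val) (fun l => if l.val = 0 then 1 else 0)
      (fun p => cc ℤ V Q K (Sum.inl v) (Sum.inl p)) (fun p => Cc V Q K (Sum.inl p) (Sum.inl v'))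
      (fun p => rfl) (fun p => by simp only [Cc, eq_comm])
    rw [h]
    have h2 : ∑ l : Fin (K + 1), (-1 : ℤ) ^ l.val * (if l.val = 0 then 1 else 0) = 1 := by
      rw [Finset.sum_eq_single (0 : Fin (K + 1))]
      · simp
      · intro b _ hb
        have : b.val ≠ 0 := fun h => hb (Fin.ext h)
        simp [this]
      · simp
    rw [h2]
    simp [cc, Cc, one_apply]
  · simp [cc, Cc]
  · simp [cc, Cc]
  · simp [cc, Cc, one_apply]

theorem i2 : cc ℤ V Q K * (dd ℤ V Q K)ᵀ = 0 := by
  ext u a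
  rw [mul_apply, Fintype.sum_sum_type]
  rcases u with v | q
  · have h := sumA (n := K + 1) v a.1 (fun l => (-1) ^ l.val)
      (fun l => if l.val = a.2.val ∨ l.val = a.2.val + 1 then 1 else 0)
      (fun p => cc ℤ V Q K (Sum.inl v) (Sum.inl p)) (fun p => (dd ℤ V Q K)ᵀ (Sum.inl p) a)
      (fun p => rfl) (fun p => by simp only [dd, transpose_apply, ite_and])
    rw [h, sum2 K a.2 (fun l => (-1) ^ l)]
    simp [cc, pow_succ]
  · simp [cc, dd]

theorem i3 : Dd V Q K * Cc V Q K = 0 := by
  ext a u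
  rw [mul_apply, Fintype.sum_sum_type]
  rcases u with v | q
  · have h := sumA (n := K + 1) a.1 v
      (fun l => if a.2.val < l.val then (-1) ^ (l.val - a.2.val - 1) else 0)
      (fun l => if l.val = 0 then 1 else 0)
      (fun p => Dd V Q K a (Sum.inl p)) (fun p => Cc V Q K (Sum.inl p) (Sum.inl v))
      (fun p => rfl) (fun p => by simp only [Cc, eq_comm])
    rw [h]
    have h2 : ∑ l : Fin (K + 1), (if a.2.val < l.val then (-1 : ℤ) ^ (l.val - a.2.val - 1) else 0) *
        (if l.val = 0 then 1 else 0) = 0 := by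
      refine Finset.sum_eq_zero fun l _ => ?_
      by_cases h0 : l.val = 0
      · rw [if_neg (by omega), zero_mul]
      · rw [if_neg h0, mul_zero]
    rw [h2]
    simp [Dd]
  · simp [Dd, Cc]

theorem i4 : Dd V Q K * (dd ℤ V Q K)ᵀ = 1 := by
  ext a b
  rw [mul_apply, Fintype.sum_sum_type]
  have h := sumA (n := K + 1) a.1 b.1
      (fun l => if a.2.val < l.val then (-1) ^ (l.val - a.2.val - 1) else 0)
      (fun l => if l.val = b.2.val ∨ l.val = b.2.val + 1 then 1 else 0)
      (fun p => Dd V Q K a (Sum.inl p)) (fun p => (dd ℤ V Q K)ᵀ (Sum.inl p) b)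
      (fun p => rfl) (fun p => by simp only [dd, transpose_apply, ite_and])
  rw [h, sum2 K b.2 (fun l => if a.2.val < l then (-1) ^ (l - a.2.val - 1) else 0)]
  have h0 : ∑ x : Q, Dd V Q K a (Sum.inr x) * (dd ℤ V Q K)ᵀ (Sum.inr x) b = 0 := by
    simp [Dd]
  rw [h0, add_zero, one_apply]
  have h1 : (if a.2.val < b.2.val then (-1 : ℤ) ^ (b.2.val - a.2.val - 1) else 0) +
      (if a.2.val < b.2.val + 1 then (-1 : ℤ) ^ (b.2.val + 1 - a.2.val - 1) else 0) =
      if a.2 = b.2 then 1 else 0 := by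
    rcases lt_trichotomy a.2.val b.2.val with h2 | h2 | h2
    · obtain ⟨d, hd⟩ := Nat.exists_eq_add_of_lt h2
      have e1 : b.2.val - a.2.val - 1 = d := by omega
      have e2 : b.2.val + 1 - a.2.val - 1 = d + 1 := by omega
      have e3 : ¬ a.2 = b.2 := fun h => by rw [h] at h2; omega
      rw [if_pos h2, if_pos (by omega), if_neg e3, e1, e2, pow_succ]
      ring
    · have e3 : a.2 = b.2 := Fin.ext h2
      rw [if_neg (by omega), if_pos (by omega), if_pos e3, h2]
      simp
    · have e3 : ¬ a.2 = b.2 := fun h => by rw [h] at h2; omega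
      rw [if_neg (by omega), if_neg (by omega), if_neg e3, add_zero]
  rw [h1, ← ite_and]
  by_cases h2 : a = b
  · rw [if_pos h2, if_pos ⟨by rw [h2], by rw [h2]⟩]
  · rw [if_neg h2, if_neg fun h => h2 (Prod.ext h.1 h.2)]

theorem i5 : Cc V Q K * cc ℤ V Q K + (dd ℤ V Q K)ᵀ * Dd V Q K = 1 := by
  ext w w'
  rw [Matrix.add_apply, mul_apply, mul_apply, Fintype.sum_sum_type]
  rcases w with p | q <;> rcases w' with p' | q'
  · have h := sumA (n := K) p.1 p'.1
      (fun k => if p.2.val = k.val ∨ p.2.val = k.val + 1 then 1 else 0)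
      (fun k => if k.val < p'.2.val then (-1) ^ (p'.2.val - k.val - 1) else 0)
      (fun x => (dd ℤ V Q K)ᵀ (Sum.inl p) x) (fun x => Dd V Q K x (Sum.inl p'))
      (fun x => by simp only [dd, transpose_apply, ite_and, eq_comm])
      (fun x => by simp only [Dd, eq_comm])
    rw [h, sum3 K p.2.val (by omega)
      (fun k => if k < p'.2.val then (-1) ^ (p'.2.val - k - 1) else 0)]
    have h1 : ∑ a₁ : V, Cc V Q K (Sum.inl p) (Sum.inl a₁) * cc ℤ V Q K (Sum.inl a₁) (Sum.inl p') =
        if p.1 = p'.1 then (if p.2.val = 0 then (-1) ^ p'.2.val else 0) else 0 := by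
      rw [Finset.sum_eq_single p.1]
      · by_cases h2 : p.1 = p'.1
        · by_cases h3 : p.2.val = 0 <;> simp [Cc, cc, h2, h3]
        · simp [Cc, cc, h2]
      · intro b _ hb
        have hb' : ¬ p.1 = b := fun h => hb h.symm
        simp [Cc, hb']
      · simp
    have h0 : ∑ x : Q, Cc V Q K (Sum.inl p) (Sum.inr x) * cc ℤ V Q K (Sum.inr x) (Sum.inl p') = 0 := by
      simp [Cc]
    rw [h1, h0, add_zero, one_apply]
    by_cases hv : p.1 = p'.1
    · rw [if_pos hv, if_pos hv]
      have hp := p.2.isLt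
      have hp' := p'.2.isLt
      have h4 : (if p.2.val = 0 then (-1 : ℤ) ^ p'.2.val else 0) +
          ((if p.2.val < K then (if p.2.val < p'.2.val then (-1) ^ (p'.2.val - p.2.val - 1) else 0) else 0) +
          (if 1 ≤ p.2.val then (if p.2.val - 1 < p'.2.val then
            (-1) ^ (p'.2.val - (p.2.val - 1) - 1) else 0) else 0)) =
          if p.2 = p'.2 then 1 else 0 := by
        rcases lt_trichotomy p.2.val p'.2.val with h2 | h2 | h2
        · obtain ⟨d, hd⟩ := Nat.exists_eq_add_of_lt h2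
          have e3 : ¬ p.2 = p'.2 := fun h => by rw [h] at h2; omega
          have e1 : p'.2.val - p.2.val - 1 = d := by omega
          rw [if_neg e3, if_pos (by omega : p.2.val < K), if_pos h2, e1]
          by_cases h5 : p.2.val = 0
          · have e2 : p'.2.val = d + 1 := by omega
            rw [if_pos h5, if_neg (by omega), e2, pow_succ]
            ring
          · have e2 : p'.2.val - (p.2.val - 1) - 1 = d + 1 := by omega
            rw [if_neg h5, if_pos (by omega), if_pos (by omega), e2, pow_succ]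
            ring
        · have e3 : p.2 = p'.2 := Fin.ext h2
          rw [if_pos e3]
          by_cases h5 : p.2.val = 0
          · rw [if_pos h5, if_neg (by omega : ¬ 1 ≤ p.2.val), ← h2, if_neg (lt_irrefl _), h5]
            simp
          · have e2 : p'.2.val - (p.2.val - 1) - 1 = 0 := by omega
            rw [if_neg h5, if_pos (by omega : 1 ≤ p.2.val),
              if_pos (by omega : p.2.val - 1 < p'.2.val), e2, if_neg (by omega : ¬ p.2.val < p'.2.val)]
            simp
        · have e3 : ¬ p.2 = p'.2 := fun h => by rw [h] at h2; omega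
          rw [if_neg e3, if_neg (by omega : ¬ p.2.val = 0), if_neg (by omega : ¬ p.2.val < p'.2.val),
            if_neg (by omega : ¬ p.2.val - 1 < p'.2.val)]
          simp
      rw [h4]
      by_cases h5 : p.2 = p'.2
      · rw [if_pos h5, if_pos (by rw [Prod.ext hv h5])]
      · rw [if_neg h5, if_neg (fun h => h5 (by rw [Sum.inl.inj h]))]
    · rw [if_neg hv, if_neg hv, if_neg (fun h => hv (by rw [Sum.inl.inj h])), add_zero]
  · simp [Cc, cc, Dd]
  · simp [Cc, cc, dd]
  · simp [Cc, cc, dd, one_apply]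

end main

theorem ccmap (R : Type) [Ring R] (V Q : Type) [DecidableEq V] [DecidableEq Q] (K : ℕ) :
    (cc ℤ V Q K).map (Int.castRingHom R) = cc R V Q K := by
  ext a b
  rcases a with v | q <;> rcases b with p | q'
  · by_cases h : v = p.1 <;> simp [cc, h]
  · simp [cc]
  · simp [cc]
  · by_cases h : q = q' <;> simp [cc, h]

theorem ddmap (R : Type) [Ring R] (V Q : Type) [DecidableEq V] [DecidableEq Q] (K : ℕ) :
    (dd ℤ V Q K).map (Int.castRingHom R) = dd R V Q K := by
  ext a b
  rcases b with p | q'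
  · by_cases h : a.1 = p.1 ∧ (p.2.val = a.2.val ∨ p.2.val = a.2.val + 1) <;> simp only [dd, map_apply, h] <;> simp
  · simp [dd]

end PIDx

open PIDx

theorem pid : S_PID := by
  intro R _ V Q _ _ _ _ K
  set φ := Int.castRingHom R with hφ
  have hc := ccmap R V Q K
  have hd := ddmap R V Q K
  have hct : (cc ℤ V Q K)ᵀ.map φ = (cc R V Q K)ᵀ := by rw [transpose_map, hc]
  have hdt : (dd ℤ V Q K)ᵀ.map φ = (dd R V Q K)ᵀ := by rw [transpose_map, hd]
  have j1 := i1 V Q K
  have j2 := i2 V Q K
  have j3 := i3 V Q K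
  have j4 := i4 V Q K
  have j5 := i5 V Q K
  refine ⟨(Dd V Q K).map φ, (Dd V Q K)ᵀ.map φ, (Cc V Q K)ᵀ.map φ, (Cc V Q K).map φ,
    ⟨?_, ?_, ?_, ?_, ?_⟩, ?_, ?_, ?_, ?_, ?_⟩
  · rw [← hc, ← Matrix.map_mul, j1, Matrix.map_one _ (map_zero _) (map_one _)]
  · rw [← hc, ← hdt, ← Matrix.map_mul, j2, Matrix.map_zero _ (map_zero _)]
  · rw [← Matrix.map_mul, j3, Matrix.map_zero _ (map_zero _)]
  · rw [← hdt, ← Matrix.map_mul, j4, Matrix.map_one _ (map_zero _) (map_one _)]
  · rw [← hc, ← hdt, ← Matrix.map_mul, ← Matrix.map_mul, ← Matrix.map_add _ (map_add _), j5,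
      Matrix.map_one _ (map_zero _) (map_one _)]
  · rw [← hct, ← Matrix.map_mul, ← transpose_mul, j1, transpose_one,
      Matrix.map_one _ (map_zero _) (map_one _)]
  · rw [← Matrix.map_mul, ← transpose_mul, j3, transpose_zero, Matrix.map_zero _ (map_zero _)]
  · rw [← hct, ← hd, ← Matrix.map_mul]
    have : dd ℤ V Q K * (cc ℤ V Q K)ᵀ = (cc ℤ V Q K * (dd ℤ V Q K)ᵀ)ᵀ := by
      rw [transpose_mul, transpose_transpose]
    rw [this, j2, transpose_zero, Matrix.map_zero _ (map_zero _)]
  · rw [← hd, ← Matrix.map_mul]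
    have : dd ℤ V Q K * (Dd V Q K)ᵀ = (Dd V Q K * (dd ℤ V Q K)ᵀ)ᵀ := by
      rw [transpose_mul, transpose_transpose]
    rw [this, j4, transpose_one, Matrix.map_one _ (map_zero _) (map_one _)]
  · rw [← hct, ← hd, ← Matrix.map_mul, ← Matrix.map_mul, ← Matrix.map_add _ (map_add _)]
    have : (cc ℤ V Q K)ᵀ * (Cc V Q K)ᵀ + (Dd V Q K)ᵀ * dd ℤ V Q K =
        (Cc V Q K * cc ℤ V Q K + (dd ℤ V Q K)ᵀ * Dd V Q K)ᵀ := by
      rw [transpose_add, transpose_mul, transpose_mul, transpose_transpose]
    rw [this, j5, transpose_one, Matrix.map_one _ (map_zero _) (map_one _)]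

end Pool.Agent.H57.AC
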