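import Pool.Agent.H57.AC.Stm

/-!
# AC-SCH: `T = (S X; D 0)` with split exact sequences on both sides
-/

set_option autoImplicit false

open Matrix

namespace Pool.Agent.H57.AC

namespace SCHx

theorem core {R : Type} [Ring R] {W L U : Type} [Fintype W] [Fintype L] [Fintype U]
    [DecidableEq W] [DecidableEq L] [DecidableEq U] (S : Matrix W W R)
    (D D' : Matrix L W R) (X F : Matrix W L R)
    (C E' : Matrix U W R) (C' E : Matrix W U R)
    (h1 : C * C' = 1) (h2 : C * X = 0) (h3 : D' * C' = 0) (h4 : D' * X = 1) (h5 : C' * C + X * D' = 1)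
    (_h6 : E' * E = 1) (_h7 : E' * F = 0) (h8 : D * E = 0) (h9 : D * F = 1) (h10 : E * E' + F * D = 1) :
    ∃ (P : Matrix (U ⊕ (L ⊕ L)) (W ⊕ L) R) (Q : Matrix (W ⊕ L) (U ⊕ (L ⊕ L)) R)
      (P₂ : Matrix (W ⊕ L) (U ⊕ (L ⊕ L)) R) (Q₂ : Matrix (U ⊕ (L ⊕ L)) (W ⊕ L) R),
      P * Q = 1 ∧ Q * P = 1 ∧ P₂ * Q₂ = 1 ∧
      P * fromBlocks S X D 0 * P₂ = fromBlocks (C * S * E) 0 0 (1 : Matrix (L ⊕ L) (L ⊕ L) R) := by
  refine ⟨fromBlocks C (-(C * S * F)) (fromRows D' 0) (fromRows (-(D' * S * F)) 1),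
    fromBlocks C' (fromCols X (S * F)) 0 (fromCols 0 1),
    fromBlocks E (fromCols 0 F) (-(D' * S * E)) (fromCols 1 0),
    fromBlocks E' 0 (fromRows (D' * S * E * E') D) (fromRows 1 0), ?_, ?_, ?_, ?_⟩
  · rw [fromBlocks_multiply]
    rw [← fromBlocks_one]
    congr 1
    · simp [h1]
    · rw [mul_fromCols, mul_fromCols, h2, ← Matrix.mul_assoc]
      ext i (j | j) <;> simp
    · rw [fromRows_mul, h3]
      ext (i | i) j <;> simp
    · rw [fromRows_mul_fromCols, fromRows_mul_fromCols, h4, ← Matrix.mul_assoc]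
      rw [fromBlocks_add, ← fromBlocks_one]
      congr 1 <;> simp
  · rw [fromBlocks_multiply, ← fromBlocks_one]
    congr 1
    · rw [fromCols_mul_fromRows]
      simpa using h5
    · rw [fromCols_mul_fromRows]
      have : S * F = (C' * C + X * D') * (S * F) := by rw [h5, Matrix.one_mul]
      rw [Matrix.add_mul] at this
      simp only [Matrix.mul_neg, Matrix.mul_one, Matrix.mul_assoc] at this ⊢
      generalize C' * (C * (S * F)) = a at this ⊢
      generalize X * (D' * (S * F)) = b at this ⊢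
      rw [this]
      abel
    · rw [fromCols_mul_fromRows]; simp
    · rw [fromCols_mul_fromRows]; simp
  · rw [fromBlocks_multiply, ← fromBlocks_one]
    congr 1
    · rw [fromCols_mul_fromRows]
      simpa using h10
    · rw [fromCols_mul_fromRows]; simp
    · rw [fromCols_mul_fromRows]; simp
    · rw [fromCols_mul_fromRows]; simp
  · rw [fromBlocks_multiply, fromBlocks_multiply]
    congr 1
    · rw [h2]
      simp only [Matrix.neg_mul, Matrix.mul_zero, Matrix.add_mul, Matrix.zero_mul, add_zero, neg_zero, Matrix.mul_assoc, h8]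
    · rw [h2]
      simp only [Matrix.neg_mul, Matrix.mul_zero, Matrix.add_mul, Matrix.zero_mul, add_zero, mul_fromCols, Matrix.mul_assoc, h9]
      ext i (j | j) <;> simp
    · simp only [fromRows_mul, h4, Matrix.neg_mul, Matrix.mul_zero, Matrix.zero_mul, add_zero, neg_zero, Matrix.one_mul,
        Matrix.add_mul, Matrix.mul_assoc, h8, Matrix.mul_neg]
      ext (i | i) j <;> simp
    · simp only [fromRows_mul, h4, Matrix.neg_mul, Matrix.mul_zero, Matrix.zero_mul, add_zero, Matrix.one_mul,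
        Matrix.add_mul, Matrix.mul_assoc, h9, mul_fromCols, Matrix.mul_one]
      rw [← fromBlocks_one]
      ext (i | i) (j | j) <;> simp

end SCHx

open TH57.Thr.Ati in
theorem sch : S_SCH := by
  intro G _ W L U _ _ _ _ _ _ S D D' X F C E' C' E h1 h2 h3 h4 h5 h6 h7 h8 h9 h10
  obtain ⟨P, Q, P₂, Q₂, a1, a2, a3, a4⟩ :=
    SCHx.core S D D' X F C E' C' E h1 h2 h3 h4 h5 h6 h7 h8 h9 h10
  rw [← kap_iso (fromBlocks S X D 0) a1 a2, ← kap_unit_right (P * fromBlocks S X D 0) a3, a4, kap_stab]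

end Pool.Agent.H57.AC
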