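import Pool.Agent.H57.AC.Stm

set_option autoImplicit false
set_option linter.unusedSectionVars false

/-! AC-TRI: the triangles joined to the columns -/

noncomputable section

open Matrix TH57.Thr.Ati Pool.Agent.W649.ZL Pool.Agent.Q102.TT

namespace Pool.Agent.H57.AC

variable {G : Type} [Group G] {m n : ℕ} (B : Matrix (Fin m) (Fin n) (MonoidAlgebra ℂ G))

theorem tri_cv_ite {P : Prop} [Decidable P] (f : G → ℂ) (u : G) :
    cv (if P then (1 : MonoidAlgebra ℂ G) else 0) f u = if P then f u else 0 := by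
  split_ifs
  · exact cv_one f u
  · exact cv_zero f u

/-- columns `i` -/
theorem tri_x (F : EE G ((Fin m ⊕ Fin n) ⊕ (Fin n × Fin 3))) (u : G) (i : Fin m) :
    Rop (hat B) F (u, Sum.inl (Sum.inl i)) =
      ∑ j, cv (cst (B i j)) (fun v => F (v, Sum.inl (Sum.inr j))) u := by
  rw [Rop_apply, Fintype.sum_sum_type, Fintype.sum_sum_type]
  have h1 : ∀ i' : Fin m, hat B (Sum.inl (Sum.inl i')) (Sum.inl (Sum.inl i)) = 0 := fun _ => rfl
  have h2 : ∀ j : Fin n, hat B (Sum.inl (Sum.inr j)) (Sum.inl (Sum.inl i)) = cst (B i j) :=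
    fun _ => rfl
  have h3 : ∀ c : Fin n × Fin 3, hat B (Sum.inr c) (Sum.inl (Sum.inl i)) = 0 := fun _ => rfl
  simp only [h1, h2, h3, cv_zero, Finset.sum_const_zero, zero_add, add_zero]

/-- columns `j` -/
theorem tri_y (F : EE G ((Fin m ⊕ Fin n) ⊕ (Fin n × Fin 3))) (u : G) (j : Fin n) :
    Rop (hat B) F (u, Sum.inl (Sum.inr j)) =
      ∑ i, cv (B i j) (fun v => F (v, Sum.inl (Sum.inl i))) u + F (u, Sum.inr (j, 0)) := by
  rw [Rop_apply, Fintype.sum_sum_type, Fintype.sum_sum_type, Fintype.sum_prod_type]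
  have h1 : ∀ i : Fin m, hat B (Sum.inl (Sum.inl i)) (Sum.inl (Sum.inr j)) = B i j := fun _ => rfl
  have h2 : ∀ j' : Fin n, hat B (Sum.inl (Sum.inr j')) (Sum.inl (Sum.inr j)) = 0 :=
    fun _ => rfl
  have h3 : ∀ (a : Fin n) (c : Fin 3), hat B (Sum.inr (a, c)) (Sum.inl (Sum.inr j)) =
      if j = a ∧ c = 0 then 1 else 0 := fun _ _ => rfl
  simp only [h1, h2, h3, cv_zero, Finset.sum_const_zero, add_zero, tri_cv_ite]
  congr 1
  rw [Finset.sum_eq_single j]
  · rw [Finset.sum_eq_single 0]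
    · rw [if_pos ⟨rfl, rfl⟩]
    · intro c _ hc
      rw [if_neg (fun h => hc h.2)]
    · intro h; exact absurd (Finset.mem_univ _) h
  · intro a _ ha
    refine Finset.sum_eq_zero fun c _ => ?_
    rw [if_neg (fun h => ha h.1.symm)]
  · intro h; exact absurd (Finset.mem_univ _) h

/-- columns `(j, c)` -/
theorem tri_z (F : EE G ((Fin m ⊕ Fin n) ⊕ (Fin n × Fin 3))) (u : G) (j : Fin n) (c : Fin 3) :
    Rop (hat B) F (u, Sum.inr (j, c)) =
      (if c = 0 then F (u, Sum.inl (Sum.inr j)) else 0) +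
        ∑ c' : Fin 3, if c' ≠ c then F (u, Sum.inr (j, c')) else 0 := by
  rw [Rop_apply, Fintype.sum_sum_type, Fintype.sum_sum_type, Fintype.sum_prod_type]
  have h1 : ∀ i : Fin m, hat B (Sum.inl (Sum.inl i)) (Sum.inr (j, c)) = 0 := fun _ => rfl
  have h2 : ∀ j' : Fin n, hat B (Sum.inl (Sum.inr j')) (Sum.inr (j, c)) =
      if j' = j ∧ c = 0 then 1 else 0 := fun _ => rfl
  have h3 : ∀ (a : Fin n) (c' : Fin 3), hat B (Sum.inr (a, c')) (Sum.inr (j, c)) =
      if a = j ∧ c' ≠ c then 1 else 0 := fun _ _ => rfl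
  simp only [h1, h2, h3, cv_zero, Finset.sum_const_zero, zero_add, tri_cv_ite]
  congr 1
  · rw [Finset.sum_eq_single j]
    · by_cases hc : c = 0
      · rw [if_pos ⟨rfl, hc⟩, if_pos hc]
      · rw [if_neg (fun h => hc h.2), if_neg hc]
    · intro a _ ha
      rw [if_neg (fun h => ha h.1)]
    · intro h; exact absurd (Finset.mem_univ _) h
  · rw [Finset.sum_eq_single j]
    · refine Finset.sum_congr rfl fun c' _ => ?_
      by_cases hc : c' ≠ c
      · rw [if_pos ⟨rfl, hc⟩, if_pos hc]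
      · rw [if_neg (fun h => hc h.2), if_neg hc]
    · intro a _ ha
      refine Finset.sum_eq_zero fun c' _ => ?_
      rw [if_neg (fun h => ha h.1)]
    · intro h; exact absurd (Finset.mem_univ _) h

/-- the equations of the kernel -/
theorem tri_ker (F : EE G ((Fin m ⊕ Fin n) ⊕ (Fin n × Fin 3))) (hF : Rop (hat B) F = 0) :
    (∀ u i, ∑ j, cv (cst (B i j)) (fun v => F (v, Sum.inl (Sum.inr j))) u = 0) ∧
    (∀ u j, ∑ i, cv (B i j) (fun v => F (v, Sum.inl (Sum.inl i))) u = -F (u, Sum.inr (j, 0))) ∧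
    (∀ u j, F (u, Sum.inr (j, 1)) = -F (u, Sum.inr (j, 0))) ∧
    (∀ u j, F (u, Sum.inr (j, 2)) = -F (u, Sum.inr (j, 0))) ∧
    (∀ u j, F (u, Sum.inl (Sum.inr j)) = 2 * F (u, Sum.inr (j, 0))) := by
  have hz : ∀ (u : G) (c), Rop (hat B) F (u, c) = 0 := by
    intro u c; rw [hF]; rfl
  have hx := fun u i => (tri_x B F u i).symm.trans (hz u _)
  have hy := fun u j => (tri_y B F u j).symm.trans (hz u _)
  have hz0 := fun u j => (tri_z B F u j 0).symm.trans (hz u _)
  have hz1 := fun u j => (tri_z B F u j 1).symm.trans (hz u _)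
  have hz2 := fun u j => (tri_z B F u j 2).symm.trans (hz u _)
  simp only [Fin.sum_univ_three] at hz0 hz1 hz2
  simp at hz0 hz1 hz2
  refine ⟨hx, ?_, ?_, ?_, ?_⟩
  · intro u j
    have := hy u j
    linear_combination this
  · intro u j
    have := hz2 u j
    linear_combination this
  · intro u j
    have := hz1 u j
    linear_combination this
  · intro u j
    have h0 := hz0 u j
    have h1 := hz1 u j
    have h2 := hz2 u j
    linear_combination h0 - h1 - h2

theorem tri : S_TRI := by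
  intro G _ m n B
  let W := (Fin m ⊕ Fin n) ⊕ (Fin n × Fin 3)
  -- the projection
  let P : Matrix ((Fin m ⊕ Fin n) ⊕ (Fin n × Fin 3)) (Fin m) (MonoidAlgebra ℂ G) := fun a i =>
    match a with
    | Sum.inl (Sum.inl i') => if i' = i then 1 else 0
    | _ => 0
  let P' : Matrix (Fin m) ((Fin m ⊕ Fin n) ⊕ (Fin n × Fin 3)) (MonoidAlgebra ℂ G) := fun i a =>
    match a with
    | Sum.inl (Sum.inl i') => if i = i' then 1 else 0
    | _ => 0
  have hP : ∀ (F : EE G ((Fin m ⊕ Fin n) ⊕ (Fin n × Fin 3))) u i,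
      Rop P F (u, i) = F (u, Sum.inl (Sum.inl i)) := by
    intro F u i
    rw [Rop_apply, Fintype.sum_sum_type, Fintype.sum_sum_type]
    have h1 : ∀ i' : Fin m, P (Sum.inl (Sum.inl i')) i = if i' = i then 1 else 0 := fun _ => rfl
    have h2 : ∀ j : Fin n, P (Sum.inl (Sum.inr j)) i = 0 := fun _ => rfl
    have h3 : ∀ c : Fin n × Fin 3, P (Sum.inr c) i = 0 := fun _ => rfl
    simp only [h1, h2, h3, cv_zero, Finset.sum_const_zero, add_zero, tri_cv_ite]
    rw [Finset.sum_ite_eq']
    rw [if_pos (Finset.mem_univ _)]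
  have hP'x : ∀ (x : EE G (Fin m)) u i, Rop P' x (u, Sum.inl (Sum.inl i)) = x (u, i) := by
    intro x u i
    rw [Rop_apply]
    have h1 : ∀ i' : Fin m, P' i' (Sum.inl (Sum.inl i)) = if i' = i then 1 else 0 := fun _ => rfl
    simp only [h1, tri_cv_ite]
    rw [Finset.sum_ite_eq', if_pos (Finset.mem_univ _)]
  have hP'y : ∀ (x : EE G (Fin m)) u j, Rop P' x (u, Sum.inl (Sum.inr j)) = 0 := by
    intro x u j
    rw [Rop_apply]
    have h1 : ∀ i' : Fin m, P' i' (Sum.inl (Sum.inr j)) = 0 := fun _ => rfl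
    simp only [h1, cv_zero, Finset.sum_const_zero]
  have hP'z : ∀ (x : EE G (Fin m)) u c, Rop P' x (u, Sum.inr c) = 0 := by
    intro x u c
    rw [Rop_apply]
    have h1 : ∀ i' : Fin m, P' i' (Sum.inr c) = 0 := fun _ => rfl
    simp only [h1, cv_zero, Finset.sum_const_zero]
  have hrn := rank_nullity (Rop P) (Rop_eqv P) (inv_ker (Rop (hat B)) (Rop_eqv _))
    (ContinuousLinearMap.isClosed_ker (Rop (hat B)))
  have e1 : LinearMap.ker (Rop (hat B) : EE G ((Fin m ⊕ Fin n) ⊕ (Fin n × Fin 3)) →ₗ[ℂ]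
        EE G ((Fin m ⊕ Fin n) ⊕ (Fin n × Fin 3)))
      ⊓ LinearMap.ker (Rop P : EE G ((Fin m ⊕ Fin n) ⊕ (Fin n × Fin 3)) →ₗ[ℂ] EE G (Fin m)) = ⊥ := by
    rw [eq_bot_iff]
    rintro F ⟨hF1, hF2⟩
    have hF1' : Rop (hat B) F = 0 := hF1
    have hF2' : Rop P F = 0 := hF2
    obtain ⟨_, k2, k3, k4, k5⟩ := tri_ker B F hF1'
    have hx : ∀ u i, F (u, Sum.inl (Sum.inl i)) = 0 := by
      intro u i
      rw [← hP, hF2']; rfl
    have hz : ∀ u j, F (u, Sum.inr (j, 0)) = 0 := by
      intro u j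
      have h := k2 u j
      have h0 : ∑ i, cv (B i j) (fun v => F (v, Sum.inl (Sum.inl i))) u = 0 := by
        refine Finset.sum_eq_zero fun i _ => ?_
        have : (fun v => F (v, Sum.inl (Sum.inl i))) = fun _ => (0 : ℂ) := funext fun v => hx v i
        rw [this, cv_zerof]
      rw [h0] at h
      linear_combination h
    change F = 0
    ext ⟨u, a⟩
    change F (u, a) = 0
    rcases a with (i | j) | ⟨j, c⟩
    · exact hx u i
    · rw [k5, hz, mul_zero]
    · fin_cases c
      · exact hz u j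
      · exact (k3 u j).trans (by rw [hz, neg_zero])
      · exact (k4 u j).trans (by rw [hz, neg_zero])
  have e2 : (LinearMap.ker (Rop (hat B) : EE G ((Fin m ⊕ Fin n) ⊕ (Fin n × Fin 3)) →ₗ[ℂ]
        EE G ((Fin m ⊕ Fin n) ⊕ (Fin n × Fin 3)))).map
        (Rop P : EE G ((Fin m ⊕ Fin n) ⊕ (Fin n × Fin 3)) →ₗ[ℂ] EE G (Fin m)) =
      LinearMap.ker (Rop B : EE G (Fin m) →ₗ[ℂ] EE G (Fin n)) := by
    ext x
    constructor
    · rintro ⟨F, hF, rfl⟩
      have hF' : Rop (hat B) F = 0 := hF
      obtain ⟨k1, k2, k3, k4, k5⟩ := tri_ker B F hF'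
      change Rop B (Rop P F) = 0
      set x := Rop P F with hx
      have hy : ∀ u j, F (u, Sum.inl (Sum.inr j)) = -2 * Rop B x (u, j) := by
        intro u j
        have h1 : Rop B x (u, j) = ∑ i, cv (B i j) (fun v => F (v, Sum.inl (Sum.inl i))) u := by
          rw [Rop_apply]
          refine Finset.sum_congr rfl fun i _ => ?_
          have : (fun v => x (v, i)) = fun v => F (v, Sum.inl (Sum.inl i)) :=
            funext fun v => by rw [hx, hP]
          rw [this]
        rw [h1, k2, k5]; ring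
      have hadj : Rop (adj B) (Rop B x) = 0 := by
        ext ⟨u, i⟩
        rw [Rop_apply]
        change ∑ j, cv (cstar (B i j)) (fun v => Rop B x (v, j)) u = 0
        have h2 := k1 u i
        have h3 : ∀ j, cv (cst (B i j)) (fun v => F (v, Sum.inl (Sum.inr j))) u =
            -2 * cv (cstar (B i j)) (fun v => Rop B x (v, j)) u := by
          intro j
          have : (fun v => F (v, Sum.inl (Sum.inr j))) = fun v => -2 * Rop B x (v, j) :=
            funext fun v => hy v j
          rw [this]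
          change cv (cstar (B i j)) _ u = _
          unfold cv
          rw [Finsupp.mul_sum]
          exact Finsupp.sum_congr fun h _ => by ring
        rw [Finset.sum_congr rfl fun j _ => h3 j, ← Finset.mul_sum] at h2
        have := (mul_eq_zero.1 h2).resolve_left (by norm_num)
        exact this
      rw [← Rop_adj] at hadj
      have h4 : inner ℂ (Rop B x) (Rop B x) = 0 := by
        rw [← ContinuousLinearMap.adjoint_inner_right, hadj, inner_zero_right]
      exact inner_self_eq_zero.1 h4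
    · intro hx
      have hx' : Rop B x = 0 := hx
      refine ⟨Rop P' x, ?_, ?_⟩
      · change Rop (hat B) (Rop P' x) = 0
        ext ⟨u, a⟩
        change Rop (hat B) (Rop P' x) (u, a) = 0
        rcases a with (i | j) | ⟨j, c⟩
        · rw [tri_x]
          refine Finset.sum_eq_zero fun j _ => ?_
          have : (fun v => Rop P' x (v, Sum.inl (Sum.inr j))) = fun _ => (0 : ℂ) :=
            funext fun v => hP'y x v j
          rw [this, cv_zerof]
        · rw [tri_y, hP'z, add_zero]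
          have h5 : ∀ i, (fun v => Rop P' x (v, Sum.inl (Sum.inl i))) = fun v => x (v, i) :=
            fun i => funext fun v => hP'x x v i
          simp only [h5]
          rw [← Rop_apply, hx']; rfl
        · rw [tri_z]
          simp only [hP'y, hP'z, ite_self, Finset.sum_const_zero, add_zero]
      · change Rop P (Rop P' x) = x
        ext ⟨u, i⟩
        change Rop P (Rop P' x) (u, i) = x (u, i)
        rw [hP, hP'x]
  rw [e1, e2, vd_bot, zero_add] at hrn
  exact hrn

end Pool.Agent.H57.AC
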