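import Pool.Agent.H57.AC.Stm
import Pool.Agent.H57.AC.PID
import Pool.Agent.H57.AC.CSC
import Pool.Agent.H57.AC.LIST
import Pool.Agent.H57.AC.GOOD
import Pool.Agent.H57.AC.DEG
import Pool.Agent.H57.AC.MAT
import Pool.Agent.H57.AC.SCH
import Pool.Agent.H57.AC.TRI
import Pool.Agent.H57.AC.GR
import Pool.Agent.H57.AC.FROM

/-!
# Kernel dimensions and nullities of cubic graphs
-/

set_option autoImplicit false

noncomputable section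

open Matrix TH57.Thr.Ati Pool.Agent.W649.ZL Pool.Agent.Q102.TT

namespace Pool.Agent.H57.AC

variable {G : Type} [Group G]

theorem kap_tot {m n N : ℕ} (I : Fin N → Fin m) (J : Fin N → Fin n) (γ : Fin N → G)
    (σ : Fin N → Bool) : kap (tot I J γ σ) = kap (mat I J γ σ) := by
  obtain ⟨D', F, E', C', ⟨a1, a2, a3, a4, a5⟩, ⟨b1, b2, b3, b4, b5⟩⟩ :=
    pid (MonoidAlgebra ℂ G) (Fin m ⊕ Fin n) (Fin n × Fin 3) (2 * N)
  have h := sch (base I J γ σ) (dd (MonoidAlgebra ℂ G) (Fin m ⊕ Fin n) (Fin n × Fin 3) (2 * N)) D'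
    (dd (MonoidAlgebra ℂ G) (Fin m ⊕ Fin n) (Fin n × Fin 3) (2 * N))ᵀ F
    (cc (MonoidAlgebra ℂ G) (Fin m ⊕ Fin n) (Fin n × Fin 3) (2 * N)) E' C'
    (cc (MonoidAlgebra ℂ G) (Fin m ⊕ Fin n) (Fin n × Fin 3) (2 * N))ᵀ a1 a2 a3 a4 a5 b1 b2 b3 b4 b5
  unfold tot
  rw [h, csc, tri]

/-- every integer matrix -/
theorem exists_graph {m n : ℕ} (B : Matrix (Fin m) (Fin n) (MonoidAlgebra ℤ G)) :
    ∃ (M : ℕ) (Γ : SimpleGraph (Fin M × G)), IsCubic Γ ∧ nullity Γ = kap (toC B) := by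
  obtain ⟨N, I, J, γ, σ, h⟩ := list B
  have h1 := good1 I J γ σ
  obtain ⟨M, Γ, h2, h3⟩ := from_good gr (tot I J γ σ) ⟨h1.1, h1.2.1, h1.2.2, deg I J γ σ⟩
  refine ⟨M, Γ, h2, ?_⟩
  rw [h3, kap_tot, ← h]
  rfl

/-- every rational matrix -/
theorem exists_graph_rat {m n : ℕ} (A : Matrix (Fin m) (Fin n) (G →₀ ℚ)) :
    ∃ (M : ℕ) (Γ : SimpleGraph (Fin M × G)), IsCubic Γ ∧ nullity Γ = kap (qC A) := by
  obtain ⟨N, A', hN, hA'⟩ := exists_int A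
  obtain ⟨M, Γ, h1, h2⟩ := exists_graph A'
  refine ⟨M, Γ, h1, ?_⟩
  rw [h2, hA', kap_smul _ _ (by exact_mod_cast hN)]

open Classical in
/-- every cubic graph -/
theorem exists_mat {M : ℕ} (Γ : SimpleGraph (Fin M × G)) (hΓ : IsCubic Γ) :
    ∃ A : Matrix (Fin M) (Fin M) (G →₀ ℚ), kap (qC A) = nullity Γ := by
  obtain ⟨A, hA⟩ := mat_exists Γ hΓ
  refine ⟨A, (gr Γ hΓ (qC A) fun i j g => ?_).symm⟩
  rw [qC_coeff, hA]
  split_ifs <;> simp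

end Pool.Agent.H57.AC
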