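import Pool.Agent.H57.AC.Stm0
import Pool.Agent.H57.AL.Q102_TT_Adj
import Pool.Agent.H57.AL.TH57_Thr_Ati3

/-!
# Project AC: the Atiyah conjecture and cubic graphs (MP_95030e_al). Statements with kernel dimensions.

`kap A` is the von Neumann dimension of the kernel of right multiplication by the matrix `A` over `ℂ[G]`, for
any finite index types (`AL/TH57_Thr_Ati.lean`). Tools: `kap_iso` (left multiplication by an invertible
matrix `P`, `P * Q = 1`, `Q * P = 1`), `kap_unit_right` (right multiplication by `P`, `P * Q = 1`),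
`kap_stab` (`fromBlocks A 0 0 1`), `kap_re` (reindexing), `kap_mul_left`, `kap_mul_right`, `kap_smul`,
`Rop_adj`, `kap_ext` (see the files `AL/Q102_TT_*.lean`, `AL/TH57_Thr_Ati*.lean`).
-/

set_option autoImplicit false

noncomputable section

open Matrix TH57.Thr.Ati Pool.Agent.W649.ZL Pool.Agent.Q102.TT

namespace Pool.Agent.H57.AC

/-- **AC-SCH.** `T = (S X; D 0)` with split exact sequences on both sides.

Proof. Let `P = (C 0; D' 0; 0 1)`, `P₂ = (E F 0; 0 0 1)`, invertible matrices by the hypotheses. Then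
`P T P₂ = (C S E, C S F, 0; D' S E, D' S F, 1; 0, 1, 0)`; by row and column operations with the unit blocks
this is equivalent to `(C S E) ⊕ 1 ⊕ 1` (`kap_iso`, `kap_unit_right`, `kap_stab`, `kap_re`). Or directly on
the kernels. -/
def S_SCH : Prop := ∀ {G : Type} [Group G] {W L U : Type} [Fintype W] [Fintype L] [Fintype U]
    [DecidableEq W] [DecidableEq L] [DecidableEq U] (S : Matrix W W (MonoidAlgebra ℂ G))
    (D D' : Matrix L W (MonoidAlgebra ℂ G)) (X F : Matrix W L (MonoidAlgebra ℂ G))
    (C E' : Matrix U W (MonoidAlgebra ℂ G)) (C' E : Matrix W U (MonoidAlgebra ℂ G)),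
    C * C' = 1 → C * X = 0 → D' * C' = 0 → D' * X = 1 → C' * C + X * D' = 1 →
    E' * E = 1 → E' * F = 0 → D * E = 0 → D * F = 1 → E * E' + F * D = 1 →
    kap (fromBlocks S X D 0) = kap (C * S * E)

/-- **AC-TRI.**

Proof. A row vector `(x, y, z)` is in the kernel iff `y B* = 0`, `x B + z₀ = 0`, `y + z₁ + z₂ = 0`,
`z₀ + z₂ = 0`, `z₀ + z₁ = 0`; so `z₁ = z₂ = - z₀`, `y = 2 z₀ = -2 x B`, `x B B* = 0`. So the kernel is the
set of the `(x, -2 x B, ...)` with `x B B* = 0`, that is `x B = 0` (`Rop_adj`: `Rop (adj B)` is the adjoint of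
`Rop B`; `cst = cstar` is `rfl`). With matrices: elimination of `z`, `y` by the unit blocks gives
`kap (B * adj B)`, and `ker (Rop (B * adj B)) = ker (Rop B)`. -/
def S_TRI : Prop := ∀ {G : Type} [Group G] {m n : ℕ} (B : Matrix (Fin m) (Fin n) (MonoidAlgebra ℂ G)),
    kap (hat B) = kap B

open Classical in
/-- **AC-GR.** The nullity of a cubic graph is the dimension of the kernel of its matrix.

Proof. `kerC_dim` (`AL/TH57_Thr_Ati2.lean`); the sets `nullspace Γ` and `kerC A` are equal: the
neighbours of `(j, g)` are the `(i, g h⁻¹)` with `Γ.Adj (i, 1) (j, h)`, by the invariance. -/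
def S_GR : Prop := ∀ {G : Type} [Group G] {n : ℕ} (Γ : SimpleGraph (Fin n × G)), IsCubic Γ →
    ∀ A : Matrix (Fin n) (Fin n) (MonoidAlgebra ℂ G),
      (∀ i j g, (A i j).coeff g = if Γ.Adj (i, 1) (j, g) then 1 else 0) → nullity Γ = kap A

/-- **AC-FROM.** From the matrix to the graph on `Fin M × G`, `M = card W`: `(i, a)`, `(j, b)` are adjacent
iff the coefficient of `a⁻¹ b` in `T (e i) (e j)` is `1`. `kap_re` and `S_GR`. The neighbours of `(i, a)` are
the `(j, a g)` with `g` in the support of `T (e i) (e j)`. -/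
def S_FROM : Prop := S_GR → ∀ {G : Type} [Group G] {W : Type} [Fintype W] [DecidableEq W]
    (T : Matrix W W (MonoidAlgebra ℂ G)), Good T →
    ∃ (M : ℕ) (Γ : SimpleGraph (Fin M × G)), IsCubic Γ ∧ nullity Γ = kap T

end Pool.Agent.H57.AC
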