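import Pool.Agent.H57.AC.Defs

/-!
# Project AC: the Atiyah conjecture and cubic graphs (MP_95030e_al). Statements which need only Mathlib.
-/

set_option autoImplicit false

noncomputable section

open Matrix

namespace Pool.Agent.H57.AC

/-- the adjoint of an element of the group ring -/
def cst {G : Type} [Group G] (x : MonoidAlgebra ℂ G) : MonoidAlgebra ℂ G :=
  MonoidAlgebra.ofCoeff ((Finsupp.equivMapDomain (Equiv.inv G) x.coeff).mapRange
    (starRingEnd ℂ) (map_zero _))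

section path

variable (R : Type) [Ring R] (V Q : Type) [DecidableEq V] [DecidableEq Q] (K : ℕ)

/-- the links: the link `(v, k)` is joined to the nodes `(v, k)` and `(v, k + 1)` -/
def dd : Matrix (V × Fin K) ((V × Fin (K + 1)) ⊕ Q) R := fun a b =>
  match b with
  | Sum.inl b => if a.1 = b.1 ∧ (b.2.val = a.2.val ∨ b.2.val = a.2.val + 1) then 1 else 0
  | Sum.inr _ => 0

/-- the alternating sums over the nodes of `v` -/
def cc : Matrix (V ⊕ Q) ((V × Fin (K + 1)) ⊕ Q) R := fun a b =>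
  match a, b with
  | Sum.inl v, Sum.inl b => if v = b.1 then (-1) ^ b.2.val else 0
  | Sum.inr q, Sum.inr q' => if q = q' then 1 else 0
  | _, _ => 0

end path

/-- **AC-PID.** Identities for paths. Take
`C' : W × U`, `C' (v, l) v' = 1` if `v = v'`, `l = 0`, and `C' q q = 1`, the other elements are zero,
`D' : L × W`, `D' (v, k) (v', l) = (-1)^(l - k - 1)` if `v = v'`, `k < l`, the other elements are zero,
`E' = C'ᵀ`, `F = D'ᵀ`. All elements are `0`, `1`, `-1`. (The last five equations are the transposes of the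
first five; as all elements are central, `(A * B)ᵀ = Bᵀ * Aᵀ` for them; or prove the first five over `ℤ` and
apply a ring homomorphism and transposition.) -/
def S_PID : Prop := ∀ (R : Type) [Ring R] (V Q : Type) [Fintype V] [Fintype Q] [DecidableEq V]
    [DecidableEq Q] (K : ℕ),
    ∃ (D' : Matrix (V × Fin K) ((V × Fin (K + 1)) ⊕ Q) R)
      (F : Matrix ((V × Fin (K + 1)) ⊕ Q) (V × Fin K) R)
      (E' : Matrix (V ⊕ Q) ((V × Fin (K + 1)) ⊕ Q) R)
      (C' : Matrix ((V × Fin (K + 1)) ⊕ Q) (V ⊕ Q) R),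
      (cc R V Q K * C' = 1 ∧ cc R V Q K * (dd R V Q K)ᵀ = 0 ∧ D' * C' = 0 ∧ D' * (dd R V Q K)ᵀ = 1 ∧
        C' * cc R V Q K + (dd R V Q K)ᵀ * D' = 1) ∧
      (E' * (cc R V Q K)ᵀ = 1 ∧ E' * F = 0 ∧ dd R V Q K * (cc R V Q K)ᵀ = 0 ∧ dd R V Q K * F = 1 ∧
        (cc R V Q K)ᵀ * E' + F * dd R V Q K = 1)

/-- the matrix `(0 B; B* 0)`, and a triangle joined to each column -/
def hat {G : Type} [Group G] {m n : ℕ} (B : Matrix (Fin m) (Fin n) (MonoidAlgebra ℂ G)) :
    Matrix ((Fin m ⊕ Fin n) ⊕ (Fin n × Fin 3)) ((Fin m ⊕ Fin n) ⊕ (Fin n × Fin 3))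
      (MonoidAlgebra ℂ G) := fun a b =>
  match a, b with
  | Sum.inl (Sum.inl i), Sum.inl (Sum.inr j) => B i j
  | Sum.inl (Sum.inr j), Sum.inl (Sum.inl i) => cst (B i j)
  | Sum.inl (Sum.inr j), Sum.inr c => if j = c.1 ∧ c.2 = 0 then 1 else 0
  | Sum.inr c, Sum.inl (Sum.inr j) => if j = c.1 ∧ c.2 = 0 then 1 else 0
  | Sum.inr c, Sum.inr c' => if c.1 = c'.1 ∧ c.2 ≠ c'.2 then 1 else 0
  | _, _ => 0

section data

variable {G : Type} [Group G] {m n N : ℕ} (I : Fin N → Fin m) (J : Fin N → Fin n) (γ : Fin N → G)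
  (σ : Fin N → Bool)

/-- the sum of the elements `± γ t` at the places `(I t, J t)` -/
def mat : Matrix (Fin m) (Fin n) (MonoidAlgebra ℂ G) := fun i j =>
  ∑ t, if I t = i ∧ J t = j then MonoidAlgebra.single (γ t) (if σ t then -1 else 1 : ℂ) else 0

/-- the edges between the paths, and the triangles -/
def base : Matrix (((Fin m ⊕ Fin n) × Fin (2 * N + 1)) ⊕ (Fin n × Fin 3))
    (((Fin m ⊕ Fin n) × Fin (2 * N + 1)) ⊕ (Fin n × Fin 3)) (MonoidAlgebra ℂ G) := fun a b =>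
  match a, b with
  | Sum.inl (Sum.inl i, k), Sum.inl (Sum.inr j, l) =>
    ∑ t : Fin N, if I t = i ∧ J t = j ∧ k.val = 2 * t.val + (if σ t then 1 else 0) ∧ l.val = 2 * t.val then
      MonoidAlgebra.single (γ t) (1 : ℂ) else 0
  | Sum.inl (Sum.inr j, l), Sum.inl (Sum.inl i, k) =>
    ∑ t : Fin N, if I t = i ∧ J t = j ∧ k.val = 2 * t.val + (if σ t then 1 else 0) ∧ l.val = 2 * t.val then
      MonoidAlgebra.single (γ t)⁻¹ (1 : ℂ) else 0
  | Sum.inl (Sum.inr j, l), Sum.inr c => if j = c.1 ∧ l.val = 2 * N ∧ c.2 = 0 then 1 else 0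
  | Sum.inr c, Sum.inl (Sum.inr j, l) => if j = c.1 ∧ l.val = 2 * N ∧ c.2 = 0 then 1 else 0
  | Sum.inr c, Sum.inr c' => if c.1 = c'.1 ∧ c.2 ≠ c'.2 then 1 else 0
  | _, _ => 0

/-- the adjacency matrix of the whole graph -/
def tot : Matrix ((((Fin m ⊕ Fin n) × Fin (2 * N + 1)) ⊕ (Fin n × Fin 3)) ⊕ ((Fin m ⊕ Fin n) × Fin (2 * N)))
    ((((Fin m ⊕ Fin n) × Fin (2 * N + 1)) ⊕ (Fin n × Fin 3)) ⊕ ((Fin m ⊕ Fin n) × Fin (2 * N)))
    (MonoidAlgebra ℂ G) :=
  fromBlocks (base I J γ σ) (dd (MonoidAlgebra ℂ G) (Fin m ⊕ Fin n) (Fin n × Fin 3) (2 * N))ᵀ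
    (dd (MonoidAlgebra ℂ G) (Fin m ⊕ Fin n) (Fin n × Fin 3) (2 * N)) 0

end data

/-- **AC-CSC.** Elementary: the sum over the nodes `k`, `l` of `(-1)^k (-1)^l` times `base`; only
`k = 2 t + s`, `l = 2 t` (or `l = 2 N`) contribute. -/
def S_CSC : Prop := ∀ {G : Type} [Group G] {m n N : ℕ} (I : Fin N → Fin m) (J : Fin N → Fin n)
    (γ : Fin N → G) (σ : Fin N → Bool),
    cc (MonoidAlgebra ℂ G) (Fin m ⊕ Fin n) (Fin n × Fin 3) (2 * N) * base I J γ σ *
      (cc (MonoidAlgebra ℂ G) (Fin m ⊕ Fin n) (Fin n × Fin 3) (2 * N))ᵀ = hat (mat I J γ σ)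

/-- **AC-LIST.** Every integer matrix is such a sum (for example induction, or the type
`Σ (i, j), Σ g ∈ support, Fin |coefficient|` and `Fintype.equivFin`). -/
def S_LIST : Prop := ∀ {G : Type} [Group G] {m n : ℕ} (B : Matrix (Fin m) (Fin n) (MonoidAlgebra ℤ G)),
    ∃ (N : ℕ) (I : Fin N → Fin m) (J : Fin N → Fin n) (γ : Fin N → G) (σ : Fin N → Bool),
      B.map (MonoidAlgebra.mapRingHom G (Int.castRingHom ℂ)) = mat I J γ σ

/-- adjacency matrices of gain graphs of maximal degree three -/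
structure Good {G : Type} [Group G] {W : Type} [Fintype W] (T : Matrix W W (MonoidAlgebra ℂ G)) :
    Prop where
  zo : ∀ w w' g, (T w w').coeff g = 0 ∨ (T w w').coeff g = 1
  symm : ∀ w w' g, (T w w').coeff g = (T w' w).coeff g⁻¹
  diag : ∀ w, (T w w).coeff 1 = 0
  deg : ∀ w, ∑ w', (T w w').coeff.support.card ≤ 3

/-- **AC-GOOD** (zo, symm, diag): elementary, by cases. -/
def S_GOOD1 : Prop := ∀ {G : Type} [Group G] {m n N : ℕ} (I : Fin N → Fin m) (J : Fin N → Fin n)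
    (γ : Fin N → G) (σ : Fin N → Bool),
    (∀ w w' g, (tot I J γ σ w w').coeff g = 0 ∨ (tot I J γ σ w w').coeff g = 1) ∧
    (∀ w w' g, (tot I J γ σ w w').coeff g = (tot I J γ σ w' w).coeff g⁻¹) ∧
    ∀ w, (tot I J γ σ w w).coeff 1 = 0

/-- **AC-DEG**: a node has at most two links and at most one other neighbour; a link has two; the vertices
`(j, 0)` of the triangles have three, the others two. -/
def S_DEG : Prop := ∀ {G : Type} [Group G] {m n N : ℕ} (I : Fin N → Fin m) (J : Fin N → Fin n)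
    (γ : Fin N → G) (σ : Fin N → Bool),
    ∀ w, ∑ w', (tot I J γ σ w w').coeff.support.card ≤ 3

open Classical in
/-- **AC-MAT.** The matrix of a cubic graph (supports are finite: the neighbours of `(i, 1)`). -/
def S_MAT : Prop := ∀ {G : Type} [Group G] {n : ℕ} (Γ : SimpleGraph (Fin n × G)), IsCubic Γ →
    ∃ A : Matrix (Fin n) (Fin n) (G →₀ ℚ), ∀ i j g, A i j g = if Γ.Adj (i, 1) (j, g) then 1 else 0

end Pool.Agent.H57.AC
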